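import Pool.Agent.Helper84.KBM.Core
import Pool.Agent.Helper63.KBL.Std
import Pool.Agent.Helper84.Dbl.Lattice
/-!
# Local version: the covolume of the lattice
-/
set_option autoImplicit false
namespace Pool.Agent.Helper84.KBM
open MeasureTheory
open Pool.Agent.Helper84.Tet (OutD Adm det3 minkowski_TBox exists_coord exists_even_comb abs4)
open Pool.Agent.Helper84.Dbl (csum cprod d2 d2_le' covolume_low exists_minrep gT le_gT gT_le OutT
  det_abs_le no_half no_half2 outD_swap12 outD_swap23)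
open Pool.Agent.Helper58.KB (OutDK OutTK InK OutAll)

/-- The volume estimate near the optimum. -/
theorem std_bound {Q : ℝ} (hQ : 4000 ≤ Q) {m11 m12 m13 m21 m22 m23 m31 m32 m33 : ℝ}
    (s : Std m11 m12 m13 m21 m22 m23 m31 m32 m33) (k : KH Q m11 m12 m13 m21 m22 m23 m31 m32 m33) :
    d2 + 53 / 10 / Q ≤ det3 m11 m12 m13 m21 m22 m23 m31 m32 m33 := by
  have hQ0 : 0 < Q := by linarith
  have hb : Helper63.KBL.Box (m11 - 2) (m22 - 2) (m33 - 2) (-m12) (-m21) (-m23) (-m32) (-m13)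
      (-m31) := by
    obtain ⟨l11, u11, l12, u12, l13, u13, l21, u21, l22, u22, l23, u23, l31, u31, l32, u32, l33,
      u33⟩ := s
    constructor <;> linarith
  have k2 : KH Q (2 + (m11 - 2)) (-(-m12)) (-(-m13)) (-(-m21)) (2 + (m22 - 2)) (-(-m23))
      (-(-m31)) (-(-m32)) (2 + (m33 - 2)) := by
    convert k using 1 <;> ring
  have t := Helper63.KBL.std_box hQ hb k2.adm k2.h0
  have e : Q * (d2 + 53 / 10 / Q) = Q * d2 + 53 / 10 := by
    field_simp
  rw [← e] at t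
  have t2 := le_of_mul_le_mul_left t hQ0
  unfold Helper63.KBL.dA at t2
  unfold det3
  linarith

/-- all rows are in the lattice -/
theorem kh_of {Q : ℝ} {L : Submodule ℤ (Fin 3 → ℝ)} {b : Fin 3 → (Fin 3 → ℝ)}
    (hmem : ∀ c0 c1 c2 : ℤ, (c0 : ℝ) • b 0 + (c1 : ℝ) • b 1 + (c2 : ℝ) • b 2 ∈ L)
    (hcomb : ∀ c0 c1 c2 : ℝ, ¬ (c0 = 0 ∧ c1 = 0 ∧ c2 = 0) →
      c0 • b 0 + c1 • b 1 + c2 • b 2 ≠ 0)
    (hLK : ∀ v ∈ L, v ≠ 0 → OutDK Q (v 0) (v 1) (v 2))
    (f0 : ∃ P : Fin 3 → ℝ, InK Q (2 * Q + 2) (P 0) (P 1) (P 2) ∧ 2 ≤ -P 0 - P 1 - P 2 ∧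
      ∀ u ∈ L, OutTK Q (P 0 + u 0) (P 1 + u 1) (P 2 + u 2))
    (f1 : ∃ P : Fin 3 → ℝ, InK Q (2 * Q + 2) (P 0) (P 1) (P 2) ∧ 2 ≤ -P 0 + P 1 + P 2 ∧
      ∀ u ∈ L, OutTK Q (P 0 + u 0) (P 1 + u 1) (P 2 + u 2))
    (f2 : ∃ P : Fin 3 → ℝ, InK Q (2 * Q + 2) (P 0) (P 1) (P 2) ∧ 2 ≤ P 0 - P 1 + P 2 ∧
      ∀ u ∈ L, OutTK Q (P 0 + u 0) (P 1 + u 1) (P 2 + u 2))
    (f3 : ∃ P : Fin 3 → ℝ, InK Q (2 * Q + 2) (P 0) (P 1) (P 2) ∧ 2 ≤ P 0 + P 1 - P 2 ∧
      ∀ u ∈ L, OutTK Q (P 0 + u 0) (P 1 + u 1) (P 2 + u 2)) :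
    KH Q (b 0 0) (b 0 1) (b 0 2) (b 1 0) (b 1 1) (b 1 2) (b 2 0) (b 2 1) (b 2 2) := by
  have hall : ∀ {P : Fin 3 → ℝ}, (∀ u ∈ L, OutTK Q (P 0 + u 0) (P 1 + u 1) (P 2 + u 2)) →
      OutAll Q (P 0) (P 1) (P 2) (b 0 0) (b 0 1) (b 0 2) (b 1 0) (b 1 1) (b 1 2)
        (b 2 0) (b 2 1) (b 2 2) := by
    intro P hP i j k
    have h := hP _ (hmem i j k)
    simp only [Pi.add_apply, Pi.smul_apply, smul_eq_mul] at h
    convert h using 1 <;> ring
  refine ⟨?_, ?_, ?_, ?_, ?_⟩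
  · intro c0 c1 c2 hc
    have h := hLK _ (hmem c0 c1 c2) (hcomb _ _ _ (by exact_mod_cast hc))
    simpa using h
  · obtain ⟨P, a1, a2, a3⟩ := f0
    exact ⟨_, _, _, a1, a2, hall a3⟩
  · obtain ⟨P, a1, a2, a3⟩ := f1
    exact ⟨_, _, _, a1, a2, hall a3⟩
  · obtain ⟨P, a1, a2, a3⟩ := f2
    exact ⟨_, _, _, a1, a2, hall a3⟩
  · obtain ⟨P, a1, a2, a3⟩ := f3
    exact ⟨_, _, _, a1, a2, hall a3⟩

/-- **Lattices which are admissible for `K_Q` with a hole have covolume at least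
`d2 + (53/10) / Q`.** -/
theorem covolume_ge_local {Q : ℝ} (hQ : 10 ^ 10 ≤ Q)
    (L : Submodule ℤ (Fin 3 → ℝ)) [DiscreteTopology L] [IsZLattice ℝ L]
    (hLK : ∀ v ∈ L, v ≠ 0 → OutDK Q (v 0) (v 1) (v 2))
    (f0 : ∃ P : Fin 3 → ℝ, InK Q (2 * Q + 2) (P 0) (P 1) (P 2) ∧ 2 ≤ -P 0 - P 1 - P 2 ∧
      ∀ u ∈ L, OutTK Q (P 0 + u 0) (P 1 + u 1) (P 2 + u 2))
    (f1 : ∃ P : Fin 3 → ℝ, InK Q (2 * Q + 2) (P 0) (P 1) (P 2) ∧ 2 ≤ -P 0 + P 1 + P 2 ∧
      ∀ u ∈ L, OutTK Q (P 0 + u 0) (P 1 + u 1) (P 2 + u 2))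
    (f2 : ∃ P : Fin 3 → ℝ, InK Q (2 * Q + 2) (P 0) (P 1) (P 2) ∧ 2 ≤ P 0 - P 1 + P 2 ∧
      ∀ u ∈ L, OutTK Q (P 0 + u 0) (P 1 + u 1) (P 2 + u 2))
    (f3 : ∃ P : Fin 3 → ℝ, InK Q (2 * Q + 2) (P 0) (P 1) (P 2) ∧ 2 ≤ P 0 + P 1 - P 2 ∧
      ∀ u ∈ L, OutTK Q (P 0 + u 0) (P 1 + u 1) (P 2 + u 2)) :
    d2 + 53 / 10 / Q ≤ ZLattice.covolume L := by
  have hQ0 : 0 < Q := by linarith [show (0:ℝ) < 10 ^ 10 by norm_num]
  have hT : d2 + 53 / 10 / Q ≤ d2 + 1 / 10 ^ 9 := by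
    have : 53 / 10 / Q ≤ 1 / 10 ^ 9 := by
      rw [div_le_div_iff₀ hQ0 (by norm_num)]
      linarith
    linarith
  set T0 := d2 + 53 / 10 / Q with hT0
  have hstd : ∀ {m11 m12 m13 m21 m22 m23 m31 m32 m33 : ℝ},
      Std m11 m12 m13 m21 m22 m23 m31 m32 m33 → KH Q m11 m12 m13 m21 m22 m23 m31 m32 m33 →
      T0 ≤ det3 m11 m12 m13 m21 m22 m23 m31 m32 m33 :=
    fun s k => std_bound (by linarith [show (4000:ℝ) < 10 ^ 10 by norm_num]) s k
  by_contra hlt
  push Not at hlt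
  have hL : ∀ v ∈ L, v ≠ 0 → OutD (v 0) (v 1) (v 2) :=
    fun v hv h0 => Helper63.KBL.outD_of_outDK hQ0 (hLK v hv h0)
  obtain ⟨p, -, -, hpK⟩ := id f0
  have hp : ∀ u ∈ L, OutT 2 (p 0 + u 0) (p 1 + u 1) (p 2 + u 2) :=
    fun u hu => Helper63.KBL.outT_of_outTK hQ0 (hpK u hu)
  have hV : ZLattice.covolume L < 74128 / 10000 := by
    have h2 : T0 ≤ 74128 / 10000 := by
      have h : (31622773 / 10000000 : ℝ) ≤ Real.sqrt 10 := by
        apply Real.le_sqrt_of_sq_le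
        norm_num
      unfold d2 at hT
      linarith
    linarith
  have hV2 : 29 / 4 ≤ ZLattice.covolume L := covolume_low L hL
  obtain ⟨u0, hu0, hmin⟩ := exists_minrep L p
  -- the three vectors
  have hb : ∀ i : Fin 3, ∃ b ∈ L, 2 ≤ b i ∧ b i < 63 / 25 ∧ |b 0| + |b 1| + |b 2| < 4 := by
    intro i
    obtain ⟨v, hvL, hv0, hv1, hv2⟩ := minkowski_TBox L (fun j => if j = i then 63 / 25 else 2)
      (fun j => by split_ifs <;> norm_num)
      (by show (4 : ℝ) ≤ _; rw [csum i]; norm_num)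
      (by
        show 8 * ZLattice.covolume L + 4 / 3 * (((if (0:Fin 3) = i then (63/25:ℝ) else 2) +
          (if (1:Fin 3) = i then 63/25 else 2) + (if (2:Fin 3) = i then 63/25 else 2)) - 4) ^ 3 <
          8 * ((if (0:Fin 3) = i then (63/25:ℝ) else 2) * (if (1:Fin 3) = i then 63/25 else 2) *
          (if (2:Fin 3) = i then 63/25 else 2))
        rw [csum i, cprod i]; norm_num; linarith)
    have hvi : 2 ≤ |v i| := by
      have hj : ∀ j, j ≠ i → |v j| < 2 := by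
        intro j hji
        have h5 : |v j| < (if j = i then 63 / 25 else 2) := hv1 j
        rwa [if_neg hji] at h5
      by_contra hc
      push Not at hc
      have hall : ∀ j, |v j| < 2 := by
        intro j
        by_cases hji : j = i
        · rw [hji]; exact hc
        · exact hj j hji
      rcases (hL v hvL hv0) with h | h | h | h
      · linarith [hall 0]
      · linarith [hall 1]
      · linarith [hall 2]
      · linarith
    have hvi2 : |v i| < 63 / 25 := by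
      have h5 : |v i| < (if i = i then 63 / 25 else 2) := hv1 i
      rwa [if_pos rfl] at h5
    rcases abs_cases (v i) with ⟨h1, h2⟩ | ⟨h1, h2⟩
    · exact ⟨v, hvL, by linarith, by linarith, hv2⟩
    · refine ⟨-v, L.neg_mem hvL, ?_, ?_, ?_⟩
      · rw [Pi.neg_apply]; linarith
      · rw [Pi.neg_apply]; linarith
      · simp only [Pi.neg_apply, abs_neg]; exact hv2
  choose b hbL hb2 hb3 hb4 using hb
  have q0 := hb2 0
  have q1 := hb2 1
  have q2 := hb2 2
  have p0 := hb3 0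
  have p1 := hb3 1
  have p2 := hb3 2
  have R0 : b 0 0 + |b 0 1| + |b 0 2| < 4 := by
    have := hb4 0
    rwa [abs_of_nonneg (by linarith : (0:ℝ) ≤ b 0 0)] at this
  have R1 : b 1 1 + |b 1 0| + |b 1 2| < 4 := by
    have := hb4 1
    rw [abs_of_nonneg (by linarith : (0:ℝ) ≤ b 1 1)] at this
    linarith
  have R2 : b 2 2 + |b 2 0| + |b 2 1| < 4 := by
    have := hb4 2
    rw [abs_of_nonneg (by linarith : (0:ℝ) ≤ b 2 2)] at this
    linarith
  have hdetne : (Matrix.of b).det ≠ 0 := by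
    apply det_ne_zero_of_sum_row_lt_diag
    intro k
    rw [Finset.sum_erase_eq_sub (Finset.mem_univ k), Fin.sum_univ_three]
    simp only [Matrix.of_apply, Real.norm_eq_abs]
    have := hb4 k
    have := hb2 k
    have := le_abs_self (b k k)
    linarith
  have hcomb : ∀ c0 c1 c2 : ℝ, ¬ (c0 = 0 ∧ c1 = 0 ∧ c2 = 0) →
      c0 • b 0 + c1 • b 1 + c2 • b 2 ≠ 0 := by
    intro c0 c1 c2 hc h
    have h1 : Matrix.vecMul ![c0, c1, c2] (Matrix.of b) = 0 := by
      ext j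
      have := congrFun h j
      simp only [Pi.add_apply, Pi.smul_apply, smul_eq_mul, Pi.zero_apply] at this
      simp only [Matrix.vecMul, dotProduct, Fin.sum_univ_three, Matrix.of_apply, Pi.zero_apply]
      simpa using this
    have h2 := Matrix.eq_zero_of_vecMul_eq_zero hdetne h1
    apply hc
    refine ⟨?_, ?_, ?_⟩
    · simpa using congrFun h2 0
    · simpa using congrFun h2 1
    · simpa using congrFun h2 2
  have hmem : ∀ c0 c1 c2 : ℤ, (c0 : ℝ) • b 0 + (c1 : ℝ) • b 1 + (c2 : ℝ) • b 2 ∈ L := by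
    intro c0 c1 c2
    rw [Int.cast_smul_eq_zsmul, Int.cast_smul_eq_zsmul, Int.cast_smul_eq_zsmul]
    exact L.add_mem (L.add_mem (L.smul_mem _ (hbL 0)) (L.smul_mem _ (hbL 1)))
      (L.smul_mem _ (hbL 2))
  have hout : ∀ c0 c1 c2 : ℤ, ¬ (c0 = 0 ∧ c1 = 0 ∧ c2 = 0) →
      OutD ((c0 : ℝ) * b 0 0 + c1 * b 1 0 + c2 * b 2 0)
        ((c0 : ℝ) * b 0 1 + c1 * b 1 1 + c2 * b 2 1)
        ((c0 : ℝ) * b 0 2 + c1 * b 1 2 + c2 * b 2 2) := by
    intro c0 c1 c2 hc
    have h := hL _ (hmem c0 c1 c2) (hcomb _ _ _ (by exact_mod_cast hc))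
    simpa using h
  have hcoset : ∀ c0 c1 c2 : ℤ, OutT (gT (p + u0))
      ((p + u0) 0 + (c0 : ℝ) * b 0 0 + c1 * b 1 0 + c2 * b 2 0)
      ((p + u0) 1 + (c0 : ℝ) * b 0 1 + c1 * b 1 1 + c2 * b 2 1)
      ((p + u0) 2 + (c0 : ℝ) * b 0 2 + c1 * b 1 2 + c2 * b 2 2) := by
    intro c0 c1 c2
    have h := le_gT.1 (hmin _ (L.add_mem hu0 (hmem c0 c1 c2)))
    simp only [Pi.add_apply, Pi.smul_apply, smul_eq_mul] at h ⊢
    convert h using 1 <;> ring
  have hG2 : 2 ≤ gT (p + u0) := by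
    rw [le_gT]
    exact hp u0 hu0
  obtain ⟨w1, w2, w3, w4⟩ := gT_le.1 (le_refl (gT (p + u0)))
  have hyp : Dbl.Hyp ((p + u0) 0) ((p + u0) 1) ((p + u0) 2) (gT (p + u0))
      (b 0 0) (b 0 1) (b 0 2) (b 1 0) (b 1 1) (b 1 2) (b 2 0) (b 2 1) (b 2 2) := by
    refine ⟨q0, q1, q2, p0.le, p1.le, p2.le, R0, R1, R2, ?_, hG2, w1, w2, w3, w4, hcoset⟩
    constructor
    · have := hout 1 0 0 (by norm_num); norm_num at this; convert this using 1
    · have := hout 0 1 0 (by norm_num); norm_num at this; convert this using 1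
    · have := hout 0 0 1 (by norm_num); norm_num at this; convert this using 1
    · have := hout 1 1 0 (by norm_num); norm_num at this; convert this using 1
    · have := hout 1 (-1) 0 (by norm_num); norm_num at this; convert this using 1 <;> ring
    · have := hout 1 0 1 (by norm_num); norm_num at this; convert this using 1
    · have := hout 1 0 (-1) (by norm_num); norm_num at this; convert this using 1 <;> ring
    · have := hout 0 1 1 (by norm_num); norm_num at this; convert this using 1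
    · have := hout 0 1 (-1) (by norm_num); norm_num at this; convert this using 1 <;> ring
    · have := hout 1 1 1 (by norm_num); norm_num at this; convert this using 1
    · have := hout 1 1 (-1) (by norm_num); norm_num at this; convert this using 1 <;> ring
    · have := hout 1 (-1) 1 (by norm_num); norm_num at this; convert this using 1 <;> ring
    · have := hout 1 (-1) (-1) (by norm_num); norm_num at this; convert this using 1 <;> ring
  have hkh := kh_of hmem hcomb hLK f0 f1 f2 f3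
  have hcore := core hT hstd ⟨hyp, hkh⟩
  have hdet3 : (Matrix.of b).det =
      det3 (b 0 0) (b 0 1) (b 0 2) (b 1 0) (b 1 1) (b 1 2) (b 2 0) (b 2 1) (b 2 2) := by
    rw [Matrix.det_fin_three]
    simp only [Matrix.of_apply]
    unfold det3
    ring
  have hub := det_abs_le q0 q1 q2 p0.le p1.le p2.le R0.le R1.le R2.le
  rw [← hdet3] at hcore hub
  obtain ⟨C, hCdet, hCw⟩ := exists_coord L b hbL
  rw [hCdet] at hub
  have hC3 : |(C.det : ℝ)| < 3 := by
    by_contra hc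
    push Not at hc
    nlinarith
  have hC3' : |C.det| < 3 := by exact_mod_cast hC3
  have hC0 : C.det ≠ 0 := by
    intro h
    rw [h] at hCdet
    simp at hCdet
    exact hdetne hCdet
  have hC1 : ¬ |C.det| = 1 := by
    intro h
    have h' : |(C.det : ℝ)| = 1 := by exact_mod_cast h
    rw [h', one_mul] at hCdet
    rw [← hCdet] at hlt
    exact absurd (le_trans hcore (le_abs_self _)) (not_le.2 hlt)
  have hC2 : |C.det| = 2 := by
    have : 0 < |C.det| := abs_pos.2 hC0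
    omega
  have hdvd : (2 : ℤ) ∣ C.det := by
    rw [← dvd_abs, hC2]
  obtain ⟨r, hr01, hr0, hrC⟩ := exists_even_comb C hdvd
  obtain ⟨w, hwL, hw⟩ := hCw r hrC
  rw [Fin.sum_univ_three] at hw
  have hwj : ∀ j, w j = ((r 0 : ℝ) * b 0 j + r 1 * b 1 j + r 2 * b 2 j) / 2 := by
    intro j
    have := congrFun hw j
    simp only [Pi.add_apply, Pi.smul_apply, smul_eq_mul] at this
    linarith
  -- shifting by lattice vectors
  have hshift : ∀ c0 c1 c2 : ℤ, ¬ ((r 0 - 2 * c0 : ℤ) = 0 ∧ (r 1 - 2 * c1 : ℤ) = 0 ∧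
      (r 2 - 2 * c2 : ℤ) = 0) →
      OutD ((((r 0 : ℝ) - 2 * c0) * b 0 0 + (r 1 - 2 * c1) * b 1 0 + (r 2 - 2 * c2) * b 2 0) / 2)
        ((((r 0 : ℝ) - 2 * c0) * b 0 1 + (r 1 - 2 * c1) * b 1 1 + (r 2 - 2 * c2) * b 2 1) / 2)
        ((((r 0 : ℝ) - 2 * c0) * b 0 2 + (r 1 - 2 * c1) * b 1 2 + (r 2 - 2 * c2) * b 2 2) / 2) := by
    intro c0 c1 c2 hc
    have hm := L.sub_mem hwL (hmem c0 c1 c2)
    have hne : w - ((c0 : ℝ) • b 0 + (c1 : ℝ) • b 1 + (c2 : ℝ) • b 2) ≠ 0 := by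
      intro h
      have h2 := hcomb ((r 0 : ℝ) - 2 * c0) ((r 1 : ℝ) - 2 * c1) ((r 2 : ℝ) - 2 * c2)
        (by exact_mod_cast hc)
      apply h2
      ext j
      have h3 := congrFun h j
      simp only [Pi.sub_apply, Pi.add_apply, Pi.smul_apply, smul_eq_mul, Pi.zero_apply,
        hwj j] at h3 ⊢
      linarith
    have h := hL _ hm hne
    simp only [Pi.sub_apply, Pi.add_apply, Pi.smul_apply, smul_eq_mul, hwj] at h
    convert h using 1 <;> ring
  obtain ⟨A1, A2, A3, A4⟩ := abs4 R0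
  obtain ⟨B1, B2, B3, B4⟩ := abs4 R1
  obtain ⟨D1, D2, D3, D4⟩ := abs4 R2
  have single : ∀ x y z : ℝ, |x| + |y| + |z| < 4 → ¬ OutD (x / 2) (y / 2) (z / 2) := by
    intro x y z hxyz h
    unfold OutD at h
    simp only [abs_div, abs_two] at h
    have := abs_nonneg x
    have := abs_nonneg y
    have := abs_nonneg z
    rcases h with h | h | h | h <;> linarith
  rcases hr01 0 with e0 | e0 <;> rcases hr01 1 with e1 | e1 <;> rcases hr01 2 with e2 | e2
  · apply hr0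
    ext i
    fin_cases i
    · exact e0
    · exact e1
    · exact e2
  · have h := hshift 0 0 0 (by rw [e0, e1, e2]; norm_num)
    rw [e0, e1, e2] at h
    norm_num at h
    exact single _ _ _ (hb4 2) h
  · have h := hshift 0 0 0 (by rw [e0, e1, e2]; norm_num)
    rw [e0, e1, e2] at h
    norm_num at h
    exact single _ _ _ (hb4 1) h
  · have h := hshift 0 0 0 (by rw [e0, e1, e2]; norm_num)
    have g := hshift 0 0 1 (by rw [e0, e1, e2]; norm_num)
    rw [e0, e1, e2] at h g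
    norm_num at h g
    refine no_half2 (m11 := b 1 1) (m12 := b 1 2) (m13 := b 1 0) (m21 := b 2 1) (m22 := b 2 2)
      (m23 := b 2 0) q1 q2 p1.le p2.le (by linarith) (by linarith) (by linarith) (by linarith)
      (by linarith) (by linarith) (by linarith) (by linarith) ?_ ?_
    · exact (outD_swap23 (outD_swap12 h))
    · convert (outD_swap23 (outD_swap12 g)) using 1 <;> ring
  · have h := hshift 0 0 0 (by rw [e0, e1, e2]; norm_num)
    rw [e0, e1, e2] at h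
    norm_num at h
    exact single _ _ _ (hb4 0) h
  · have h := hshift 0 0 0 (by rw [e0, e1, e2]; norm_num)
    have g := hshift 0 0 1 (by rw [e0, e1, e2]; norm_num)
    rw [e0, e1, e2] at h g
    norm_num at h g
    refine no_half2 (m11 := b 0 0) (m12 := b 0 2) (m13 := b 0 1) (m21 := b 2 0) (m22 := b 2 2)
      (m23 := b 2 1) q0 q2 p0.le p2.le (by linarith) (by linarith) (by linarith) (by linarith)
      (by linarith) (by linarith) (by linarith) (by linarith) ?_ ?_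
    · exact (outD_swap23 h)
    · convert (outD_swap23 g) using 1 <;> ring
  · have h := hshift 0 0 0 (by rw [e0, e1, e2]; norm_num)
    have g := hshift 0 1 0 (by rw [e0, e1, e2]; norm_num)
    rw [e0, e1, e2] at h g
    norm_num at h g
    refine no_half2 (m11 := b 0 0) (m12 := b 0 1) (m13 := b 0 2) (m21 := b 1 0) (m22 := b 1 1)
      (m23 := b 1 2) q0 q1 p0.le p1.le (by linarith) (by linarith) (by linarith) (by linarith)
      (by linarith) (by linarith) (by linarith) (by linarith) ?_ ?_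
    · exact h
    · convert g using 1 <;> ring
  · have h := hshift 0 0 0 (by rw [e0, e1, e2]; norm_num)
    have g := hshift 0 0 1 (by rw [e0, e1, e2]; norm_num)
    have f := hshift 0 1 0 (by rw [e0, e1, e2]; norm_num)
    have k := hshift 0 1 1 (by rw [e0, e1, e2]; norm_num)
    rw [e0, e1, e2] at h g f k
    norm_num at h g f k
    refine no_half q0 q1 q2 p0.le p1.le p2.le A1 A2 A3 A4 B1 B2 B3 B4 D1 D2 D3 D4 ?_ ?_ ?_ ?_
    · exact h
    · convert g using 1 <;> ring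
    · convert f using 1 <;> ring
    · convert k using 1 <;> ring

end Pool.Agent.Helper84.KBM
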