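import Pool.Agent.Helper84.Dbl.Hole
import Pool.Agent.Helper84.KBM.CertKz
import Pool.Agent.Helper84.KBM.CertKu
/-!
# The main cell near its minimum
-/
set_option autoImplicit false
namespace Pool.Agent.Helper84.KBM
open Pool.Agent.Helper84.Dbl

/-- Near the optimal point `a = b = c = z = 0`, `x = (26 - 8√10)/3`, `u = v = 2√10 - 6`,
`y = w = (8 - 2√10)/3`. -/
structure Near (a b c x u y v z w : ℝ) : Prop where
  na : a ≤ 1 / 2000
  nb : b ≤ 1 / 2000
  nc : c ≤ 1 / 2000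
  nz : z ≤ 1 / 2000
  nx1 : 2334 / 10000 ≤ x
  nx2 : x ≤ 2344 / 10000
  nu1 : 3240 / 10000 ≤ u
  nu2 : u ≤ 3251 / 10000
  ny1 : 5579 / 10000 ≤ y
  ny2 : y ≤ 5590 / 10000
  nv1 : 3240 / 10000 ≤ v
  nv2 : v ≤ 3251 / 10000
  nw1 : 5579 / 10000 ≤ w
  nw2 : w ≤ 5590 / 10000

theorem tau_ge2 (t : ℝ) (ht : 0 ≤ t) : d2 + 8 / 3 * (t - (2 * Real.sqrt 10 - 6)) ^ 2 ≤
    (208 - 48 * t + 72 * (t * t) + 4 * (t * t * t)) / 27 := by
  have hs : Real.sqrt 10 * Real.sqrt 10 = 10 := Real.mul_self_sqrt (by norm_num)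
  have h : (3 : ℝ) ≤ Real.sqrt 10 := by
    apply Real.le_sqrt_of_sq_le
    norm_num
  unfold d2
  set s := Real.sqrt 10 with hsdef
  have key : (208 - 48 * t + 72 * (t * t) + 4 * (t * t * t)) / 27 - (2224 - 640 * s) / 27 =
      4 / 27 * ((t - 2 * s + 6) ^ 2 * (t + 4 * s + 6)) := by
    ring_nf
    have e2 : s ^ 2 = 10 := by rw [sq]; exact hs
    have e3 : s ^ 3 = 10 * s := by rw [pow_succ, e2]
    rw [e3, e2]
    ring
  have hpos : 0 ≤ (t - 2 * s + 6) ^ 2 * (t + 4 * s - 12) :=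
    mul_nonneg (sq_nonneg _) (by linarith)
  nlinarith [hpos, key]

theorem sqrt10_lo : 3.16227 < Real.sqrt 10 := by
  apply Real.lt_sqrt_of_sq_lt
  norm_num

theorem sqrt10_hi : Real.sqrt 10 < 3.16228 := by
  rw [Real.sqrt_lt' (by norm_num)]
  norm_num

theorem sq_small {s e r : ℝ} (h : s ^ 2 ≤ e) (hr : 0 ≤ r) (he : e < r ^ 2) : -r ≤ s ∧ s ≤ r :=
  abs_le.1 (abs_le_of_sq_le_sq (by linarith) hr)

theorem near_of_kz {a b c x u y v z w : ℝ} (h : MC a b c x u y v z w)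
    (hk : 0 ≤ a + 2 * b + c - x - v - z + w)
    (hd : detA a b c x u y v z w < d2 + 1 / 10 ^ 9) : Near a b c x u y v z w := by
  obtain ⟨ha, hb, hc, hx, hu, hy, hv, hz, hw, r1, r2, r3, k1, k2, k3, g12, g13, g23, gv⟩ := h
  have key := near_kz a b c x u y v z w ha hb hc hx hu hy hv hz hw (by linarith) (by linarith)
    (by linarith) (by linarith) (by linarith) (by linarith) (by linarith) (by linarith)
    (by linarith) (by linarith) hk
  have ht := tau_ge2 ((1/2)*u + (1/2)*v) (by linarith)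
  unfold detA at hd
  have q1 := sq_nonneg ((1/2)*u + (1/2)*v - (2 * Real.sqrt 10 - 6))
  have q2 := mul_self_nonneg (u - v)
  have l1 := sqrt10_lo
  have l2 := sqrt10_hi
  obtain ⟨e1, e2⟩ := sq_small (s := u - v) (e := 4 / 10 ^ 9) (r := 7 / 100000)
    (by rw [sq]; linarith) (by norm_num) (by norm_num)
  obtain ⟨e3, e4⟩ := sq_small (s := (1/2)*u + (1/2)*v - (2 * Real.sqrt 10 - 6))
    (e := 3 / 8 / 10 ^ 9) (r := 2 / 100000)
    (by linarith) (by norm_num) (by norm_num)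
  have hS : (1/20) * (5*a + 6*b + 5*c - 2*x - u - y - 2*v - z + 2) < 1 / 10 ^ 9 := by linarith
  clear key ht q1 q2 hd
  constructor <;> linarith

theorem near_of_ku {a b c x u y v z w : ℝ} (h : MC a b c x u y v z w)
    (hk : 0 ≤ a + b - u)
    (hd : detA a b c x u y v z w < d2 + 1 / 10 ^ 9) : Near b c a y v w z u x := by
  obtain ⟨ha, hb, hc, hx, hu, hy, hv, hz, hw, r1, r2, r3, k1, k2, k3, g12, g13, g23, gv⟩ := h
  have key := near_ku a b c x u y v z w ha hb hc hx hu hy hv hz hw (by linarith) (by linarith)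
    (by linarith) (by linarith) (by linarith) (by linarith) (by linarith) (by linarith)
    (by linarith) (by linarith) hk
  have ht := tau_ge2 ((1/2)*v + (1/2)*z) (by linarith)
  unfold detA at hd
  have q1 := sq_nonneg ((1/2)*v + (1/2)*z - (2 * Real.sqrt 10 - 6))
  have q2 := mul_self_nonneg (v - z)
  have l1 := sqrt10_lo
  have l2 := sqrt10_hi
  obtain ⟨e1, e2⟩ := sq_small (s := v - z) (e := 4 / 10 ^ 9) (r := 7 / 100000)
    (by rw [sq]; linarith) (by norm_num) (by norm_num)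
  obtain ⟨e3, e4⟩ := sq_small (s := (1/2)*v + (1/2)*z - (2 * Real.sqrt 10 - 6))
    (e := 3 / 8 / 10 ^ 9) (r := 2 / 100000)
    (by linarith) (by norm_num) (by norm_num)
  have hS : (1/20) * (5*a + 5*b + 4*c - x - u - y - v - z - w + 2) < 1 / 10 ^ 9 := by linarith
  clear key ht q1 q2 hd
  constructor <;> linarith

/-- In the main cell, if the determinant is less than `d2 + 10⁻⁹` then all the twelve critical forms
are negative, or the point is (up to a permutation of the coordinates) near the optimal point. -/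
theorem near_cases {a b c x u y v z w : ℝ} (h : MC a b c x u y v z w)
    (hd : detA a b c x u y v z w < d2 + 1 / 10 ^ 9) :
    Neg a b c x u y v z w ∨ Near a b c x u y v z w ∨ Near b a c u x z w y v ∨
      Near a c b z w v y x u ∨ Near c a b w z x u v y ∨ Near b c a y v w z u x ∨
      Near c b a v y u x w z := by
  have s12 : detA b a c u x z w y v < d2 + 1 / 10 ^ 9 := by rw [detA_swap12]; exact hd
  have s23 : detA a c b z w v y x u < d2 + 1 / 10 ^ 9 := by rw [detA_swap23]; exact hd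
  have s123 : detA c a b w z x u v y < d2 + 1 / 10 ^ 9 := by
    rw [detA_swap12]; exact s23
  have s132 : detA b c a y v w z u x < d2 + 1 / 10 ^ 9 := by
    rw [detA_swap23]; exact s12
  have s13 : detA c b a v y u x w z < d2 + 1 / 10 ^ 9 := by
    rw [detA_swap23]; exact s123
  by_contra hc
  push Not at hc
  obtain ⟨hN, c1, c2, c3, c4, c5, c6⟩ := hc
  apply hN
  have a1 : ¬ (0 : ℝ) ≤ _ := fun t => c1 (near_of_kz h t hd)
  have a2 : ¬ (0 : ℝ) ≤ _ := fun t => c2 (near_of_kz h.swap12 t s12)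
  have a3 : ¬ (0 : ℝ) ≤ _ := fun t => c3 (near_of_kz h.swap23 t s23)
  have a4 : ¬ (0 : ℝ) ≤ _ := fun t => c4 (near_of_kz h.swap23.swap12 t s123)
  have a5 : ¬ (0 : ℝ) ≤ _ := fun t => c5 (near_of_kz h.swap12.swap23 t s132)
  have a6 : ¬ (0 : ℝ) ≤ _ := fun t => c6 (near_of_kz h.swap23.swap12.swap23 t s13)
  have b1 : ¬ (0 : ℝ) ≤ _ := fun t => c5 (near_of_ku h t hd)
  have b2 : ¬ (0 : ℝ) ≤ _ := fun t => c3 (near_of_ku h.swap12 t s12)
  have b3 : ¬ (0 : ℝ) ≤ _ := fun t => c6 (near_of_ku h.swap23 t s23)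
  have b4 : ¬ (0 : ℝ) ≤ _ := fun t => c1 (near_of_ku h.swap23.swap12 t s123)
  have b5 : ¬ (0 : ℝ) ≤ _ := fun t => c4 (near_of_ku h.swap12.swap23 t s132)
  have b6 : ¬ (0 : ℝ) ≤ _ := fun t => c2 (near_of_ku h.swap23.swap12.swap23 t s13)
  rw [not_le] at a1 a2 a3 a4 a5 a6 b1 b2 b3 b4 b5 b6
  constructor <;> linarith

end Pool.Agent.Helper84.KBM
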