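import Pool.Agent.Helper84.KBM.Defs
import Pool.Agent.Helper84.KBM.Near
import Pool.Agent.Helper84.KBM.CertA17
import Pool.Agent.Helper84.KBM.CertB14
import Pool.Agent.Helper84.KBM.CertC26
import Pool.Agent.Helper84.KBM.CertC28
import Pool.Agent.Helper84.Tet.Core
/-!
# Local version: the exact cells
-/
set_option autoImplicit false
namespace Pool.Agent.Helper84.KBM
open Pool.Agent.Helper84.Dbl
open Pool.Agent.Helper84.Tet (det3)

theorem tau_ge3 (t : ℝ) (ht : -6 ≤ t) : d2 + 16 / 9 * (t - (2 * Real.sqrt 10 - 6)) ^ 2 ≤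
    (208 - 48 * t + 72 * (t * t) + 4 * (t * t * t)) / 27 := by
  have hs : Real.sqrt 10 * Real.sqrt 10 = 10 := Real.mul_self_sqrt (by norm_num)
  have h : (3 : ℝ) ≤ Real.sqrt 10 := by
    apply Real.le_sqrt_of_sq_le
    norm_num
  unfold d2
  set s := Real.sqrt 10 with hsdef
  have key : (208 - 48 * t + 72 * (t * t) + 4 * (t * t * t)) / 27 - (2224 - 640 * s) / 27 =
      4 / 27 * ((t - 2 * s + 6) ^ 2 * (t + 4 * s + 6)) := by
    ring_nf
    have e2 : s ^ 2 = 10 := by rw [sq]; exact hs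
    have e3 : s ^ 3 = 10 * s := by rw [pow_succ, e2]
    rw [e3, e2]
    ring
  have hpos : 0 ≤ (t - 2 * s + 6) ^ 2 * (t + 4 * s - 6) :=
    mul_nonneg (sq_nonneg _) (by linarith)
  nlinarith [hpos, key]

theorem det_swap12 (m11 m12 m13 m21 m22 m23 m31 m32 m33 : ℝ) :
    det3 m22 m21 m23 m12 m11 m13 m32 m31 m33 = det3 m11 m12 m13 m21 m22 m23 m31 m32 m33 := by
  unfold det3
  ring

theorem det_swap23 (m11 m12 m13 m21 m22 m23 m31 m32 m33 : ℝ) :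
    det3 m11 m13 m12 m31 m33 m32 m21 m23 m22 = det3 m11 m12 m13 m21 m22 m23 m31 m32 m33 := by
  unfold det3
  ring

section
variable {Q T0 : ℝ} (hT : T0 ≤ d2 + 1 / 10 ^ 9)
  (hstd : ∀ {m11 m12 m13 m21 m22 m23 m31 m32 m33 : ℝ},
    Std m11 m12 m13 m21 m22 m23 m31 m32 m33 → KH Q m11 m12 m13 m21 m22 m23 m31 m32 m33 →
    T0 ≤ det3 m11 m12 m13 m21 m22 m23 m31 m32 m33)
include hT hstd

theorem cellA17 (a b c x u y v z w : ℝ) (h0 : 0 ≤ a) (h1 : 0 ≤ b) (h2 : 0 ≤ c) (h3 : 0 ≤ x)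
    (h4 : 0 ≤ u) (h5 : 0 ≤ y) (h6 : 0 ≤ v) (h7 : 0 ≤ z) (h8 : 0 ≤ w) (h9 : 0 ≤ -a - x - z + 2)
    (h10 : 0 ≤ -b - u - y + 2) (h11 : 0 ≤ -c - v - w + 2) (h12 : 0 ≤ -a + (13/25))
    (h13 : 0 ≤ -b + (13/25)) (h14 : 0 ≤ -c + (13/25))
    (h15 : 0 ≤ a + b + c - x - u - y - v - z - w + 2) (h16 : 0 ≤ a - w)
    (h17 : 0 ≤ b + c + u - y - v + w) (h18 : 0 ≤ a + b - x - u + y + z)
    (k : KH Q (2 + a) (-x) (-z) (-u) (2 + b) (-y) (-w) (-v) (2 + c)) :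
    T0 ≤ (2+a)*(2+b)*(2+c) - x*y*w - z*u*v - (2+a)*(y*v) - (2+b)*(z*w) - (2+c)*(x*u) := by
  by_contra hd
  push Not at hd
  have key := near_A17 a b c x u y v z w h0 h1 h2 h3 h4 h5 h6 h7 h8
  have key := key (by linarith) (by linarith) (by linarith) (by linarith) (by linarith)
    (by linarith) (by linarith) (by linarith) (by linarith) (by linarith)
  have ht := tau_ge3 ((1/4)*x + (1/4)*y - (3/8)*v + (1/4)) (by linarith)
  have q1 := sq_nonneg ((1/4)*x + (1/4)*y - (3/8)*v + (1/4) - (2 * Real.sqrt 10 - 6))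
  have q2 := mul_self_nonneg (x - y)
  have l1 := sqrt10_lo
  have l2 := sqrt10_hi
  obtain ⟨e1, e2⟩ := sq_small (s := x - y) (e := 2 / 10 ^ 8) (r := 15 / 100000)
    (by rw [sq]; linarith) (by norm_num) (by norm_num)
  obtain ⟨e3, e4⟩ := sq_small (s := (1/4)*x + (1/4)*y - (3/8)*v + (1/4) - (2 * Real.sqrt 10 - 6))
    (e := 1 / 10 ^ 9) (r := 4 / 100000)
    (by linarith) (by norm_num) (by norm_num)
  have hS : (1/50) * (4*a + 4*b + 3*c - 2*x - u - y - 2*v + 2) < 1 / 10 ^ 9 := by linarith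
  clear key ht q1 q2
  have s : Std (2 + c) (-v) (-w) (-y) (2 + b) (-u) (-z) (-x) (2 + a) := by
    constructor <;> linarith
  have t := hstd s k.swap23.swap12.swap23
  unfold det3 at t
  linarith

theorem cellC28 (a b c x u y v z w : ℝ) (h0 : 0 ≤ a) (h1 : 0 ≤ b) (h2 : 0 ≤ c) (h3 : 0 ≤ x)
    (h4 : 0 ≤ u) (h5 : 0 ≤ y) (h6 : 0 ≤ v) (h7 : 0 ≤ z) (h8 : 0 ≤ w) (h9 : 0 ≤ -a - x - z + 2)
    (h10 : 0 ≤ -b - u - y + 2) (h11 : 0 ≤ -c - v - w + 2) (h12 : 0 ≤ -a + (13/25))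
    (h13 : 0 ≤ -b + (13/25)) (h14 : 0 ≤ -c + (13/25))
    (h15 : 0 ≤ a + c + x + v - z - w) (h16 : 0 ≤ a + b - x - u - y + z)
    (h17 : 0 ≤ a + b + c - x - u + y - v - z - w + 2)
    (k : KH Q (2 + a) (-x) (-z) (-u) (2 + b) y (-w) (-v) (2 + c)) :
    T0 ≤ (2+a)*(2+b)*(2+c) + x*y*w - z*u*v + (2+a)*(y*v) - (2+b)*(z*w) - (2+c)*(x*u) := by
  by_contra hd
  push Not at hd
  have key := near_C28 a b c x u y v z w h0 h1 h2 h3 h4 h5 h6 h7 h8
  have key := key (by linarith) (by linarith) (by linarith) (by linarith) (by linarith)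
    (by linarith) (by linarith) (by linarith) (by linarith)
  have ht := tau_ge3 ((1/4)*x - (3/8)*u + (1/4)*w + (1/4)) (by linarith)
  have q1 := sq_nonneg ((1/4)*x - (3/8)*u + (1/4)*w + (1/4) - (2 * Real.sqrt 10 - 6))
  have q2 := mul_self_nonneg (x - w)
  have l1 := sqrt10_lo
  have l2 := sqrt10_hi
  obtain ⟨e1, e2⟩ := sq_small (s := x - w) (e := 2 / 10 ^ 8) (r := 15 / 100000)
    (by rw [sq]; linarith) (by norm_num) (by norm_num)
  obtain ⟨e3, e4⟩ := sq_small (s := (1/4)*x - (3/8)*u + (1/4)*w + (1/4) - (2 * Real.sqrt 10 - 6))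
    (e := 1 / 10 ^ 9) (r := 4 / 100000)
    (by linarith) (by norm_num) (by norm_num)
  have hS : (1/50) * (4*a + 3*b + 3*c - x - 2*u + y - z - 2*w + 2) < 1 / 10 ^ 9 := by linarith
  clear key ht q1 q2
  have s : Std (2 + b) (-u) y (-x) (2 + a) (-z) (-v) (-w) (2 + c) := by
    constructor <;> linarith
  have t := hstd s k.swap12
  unfold det3 at t
  linarith

theorem cellC26 (a b c x u y v z w : ℝ) (h0 : 0 ≤ a) (h1 : 0 ≤ b) (h2 : 0 ≤ c) (h3 : 0 ≤ x)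
    (h4 : 0 ≤ u) (h5 : 0 ≤ y) (h6 : 0 ≤ v) (h7 : 0 ≤ z) (h8 : 0 ≤ w) (h9 : 0 ≤ -a - x - z + 2)
    (h10 : 0 ≤ -b - u - y + 2) (h11 : 0 ≤ -c - v - w + 2) (h12 : 0 ≤ -a + (13/25))
    (h13 : 0 ≤ -b + (13/25)) (h14 : 0 ≤ -c + (13/25))
    (h15 : 0 ≤ a + c + x + v - z - w) (h16 : 0 ≤ a + b - x - u + y - z)
    (h17 : 0 ≤ a + b + c - x - u - y + v + z + w + 2)
    (k : KH Q (2 + a) (-x) (-z) (-u) (2 + b) y (-w) (-v) (2 + c)) :
    T0 ≤ (2+a)*(2+b)*(2+c) + x*y*w - z*u*v + (2+a)*(y*v) - (2+b)*(z*w) - (2+c)*(x*u) := by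
  by_contra hd
  push Not at hd
  have key := near_C26 a b c x u y v z w h0 h1 h2 h3 h4 h5 h6 h7 h8
  have key := key (by linarith) (by linarith) (by linarith) (by linarith) (by linarith)
    (by linarith) (by linarith) (by linarith) (by linarith)
  have ht := tau_ge3 (-(9/16)*a - (13/16)*b - (13/16)*c - (3/16)*x + (3/16)*u - (5/16)*y -
    (1/8)*v + (11/16)*z - (5/16)*w + (5/8)) (by linarith)
  have q1 := sq_nonneg (-(9/16)*a - (13/16)*b - (13/16)*c - (3/16)*x + (3/16)*u - (5/16)*y -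
    (1/8)*v + (11/16)*z - (5/16)*w + (5/8) - (2 * Real.sqrt 10 - 6))
  have q2 := mul_self_nonneg (x - u)
  have l1 := sqrt10_lo
  have l2 := sqrt10_hi
  obtain ⟨e1, e2⟩ := sq_small (s := x - u) (e := 2 / 10 ^ 8) (r := 15 / 100000)
    (by rw [sq]; linarith) (by norm_num) (by norm_num)
  obtain ⟨e3, e4⟩ := sq_small (s := -(9/16)*a - (13/16)*b - (13/16)*c - (3/16)*x + (3/16)*u -
    (5/16)*y - (1/8)*v + (11/16)*z - (5/16)*w + (5/8) - (2 * Real.sqrt 10 - 6))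
    (e := 1 / 10 ^ 9) (r := 4 / 100000)
    (by linarith) (by norm_num) (by norm_num)
  have hS : (1/100) * (4*a + 2*b + 3*c - x - 3*u - y + 3*v - z + 4) < 1 / 10 ^ 9 := by linarith
  clear key ht q1 q2
  have s : Std (2 + c) (-w) (-v) (-z) (2 + a) (-x) (y - (2 + c)) (-u - -w) (2 + b - -v) := by
    constructor <;> linarith
  have t := hstd s k.sub23.swap23.swap12
  unfold det3 at t
  linarith

theorem cellB14 (a b c x u y v z w : ℝ) (h0 : 0 ≤ a) (h1 : 0 ≤ b) (h2 : 0 ≤ c) (h3 : 0 ≤ x)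
    (h4 : 0 ≤ u) (h5 : 0 ≤ y) (h6 : 0 ≤ v) (h7 : 0 ≤ z) (h8 : 0 ≤ w) (h9 : 0 ≤ -a - x - z + 2)
    (h10 : 0 ≤ -b - u - y + 2) (h11 : 0 ≤ -c - v - w + 2) (h12 : 0 ≤ -a + (13/25))
    (h13 : 0 ≤ -b + (13/25)) (h14 : 0 ≤ -c + (13/25))
    (h15 : 0 ≤ a - w) (h16 : 0 ≤ a + b - x - u - y + z) (h17 : 0 ≤ b + c + u - y - v - w)
    (h18 : 0 ≤ a + b + c - x - u + y + v - z - w + 2)
    (k : KH Q (2 + a) x z u (2 + b) y w v (2 + c)) :
    T0 ≤ (2+a)*(2+b)*(2+c) + x*y*w + z*u*v - (2+a)*(y*v) - (2+b)*(z*w) - (2+c)*(x*u) := by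
  by_contra hd
  push Not at hd
  have key := near_B14 a b c x u y v z w h0 h1 h2 h3 h4 h5 h6 h7 h8
  have key := key (by linarith) (by linarith) (by linarith) (by linarith) (by linarith)
    (by linarith) (by linarith) (by linarith) (by linarith) (by linarith)
  have ht := tau_ge3 ((5/8)*a + (3/4)*b + (1/2)*c + (3/8)*x + (1/2)*y - (1/2)*v - (1/8)*z -
    (9/8)*w + (1/4)) (by linarith)
  have q1 := sq_nonneg ((5/8)*a + (3/4)*b + (1/2)*c + (3/8)*x + (1/2)*y - (1/2)*v - (1/8)*z -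
    (9/8)*w + (1/4) - (2 * Real.sqrt 10 - 6))
  have q2 := mul_self_nonneg (x - u)
  have l1 := sqrt10_lo
  have l2 := sqrt10_hi
  obtain ⟨e1, e2⟩ := sq_small (s := x - u) (e := 2 / 10 ^ 8) (r := 15 / 100000)
    (by rw [sq]; linarith) (by norm_num) (by norm_num)
  obtain ⟨e3, e4⟩ := sq_small (s := (5/8)*a + (3/4)*b + (1/2)*c + (3/8)*x + (1/2)*y - (1/2)*v -
    (1/8)*z - (9/8)*w + (1/4) - (2 * Real.sqrt 10 - 6))
    (e := 1 / 10 ^ 9) (r := 4 / 100000)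
    (by linarith) (by norm_num) (by norm_num)
  have hS : (1/50) * (3*a + 4*b + 3*c - 3*x - u - y - z - 2*w + 4) < 1 / 10 ^ 9 := by linarith
  clear key ht q1 q2
  have s : Std (2 + c) (-v) w (-y) (2 + b) (-u) (z - (2 + c)) (-(x - v)) (2 + a - w) := by
    constructor <;> linarith
  have t := hstd s k.sub13.flip2.swap23.swap12.swap23
  unfold det3 at t
  linarith

end

end Pool.Agent.Helper84.KBM
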