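import Pool.Agent.Helper84.Tet.Defs
import Pool.Agent.Helper84.Dbl.LeafD1_0
import Pool.Agent.Helper84.Dbl.LeafD1_1
set_option autoImplicit false
set_option maxRecDepth 100000
set_option linter.unusedVariables false
namespace Pool.Agent.Helper84.KBM
open Pool.Agent.Helper84.Tet (OutD Adm)
open Pool.Agent.Helper84.Dbl

private theorem h99_class_D1_1 (a b c x u y v z w : ℝ)
    (ha : 0 ≤ a) (hb : 0 ≤ b) (hc : 0 ≤ c) (hx : 0 ≤ x) (hu : 0 ≤ u) (hy : 0 ≤ y) (hv : 0 ≤ v) (hz : 0 ≤ z) (hw : 0 ≤ w)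
    (r1 : 0 ≤ -a - x - z + 2) (r2 : 0 ≤ -b - u - y + 2) (r3 : 0 ≤ -c - v - w + 2) (k1 : 0 ≤ -a + (13/25)) (k2 : 0 ≤ -b + (13/25)) (k3 : 0 ≤ -c + (13/25))
    (hadm : Adm OutD (2 + a) (-x) (-z) (-u) (2 + b) (-y) w v (2 + c)) :
    0 ≤ a - u ∨ 0 ≤ b - x ∨ 0 ≤ a + b - x - u + y + z := by
  rcases hadm.o110.alts with h | h | h | h | h | h | h | h | h | h | h | h | h | h
  · exact Or.inl (by linarith only [h])
  · exfalso; linarith only [ha, hb, hy, r2, h]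
  · exact Or.inr (Or.inl (by linarith only [h]))
  · exfalso; linarith only [ha, hb, hz, r1, h]
  · exfalso; linarith only [hy, hz, h]
  · exact Or.inr (Or.inr (by linarith only [ha, hb, r1, r2, h]))
  · exact Or.inr (Or.inr (by linarith only [hy, hz, h]))
  · exfalso; linarith only [ha, hx, hy, hz, r2, h]
  · exfalso; linarith only [hb, hu, hy, hz, r1, h]
  · exfalso; linarith only [ha, hb, hy, hz, r1, r2, h]
  · exact Or.inr (Or.inr (by linarith only [h]))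
  · exact Or.inr (Or.inl (by linarith only [ha, hb, r1, r2, h]))
  · exact Or.inl (by linarith only [ha, hb, r1, r2, h])
  · exfalso; linarith only [ha, hb, r1, r2, h]

private theorem h99_class_D1_2 (a b c x u y v z w : ℝ)
    (ha : 0 ≤ a) (hb : 0 ≤ b) (hc : 0 ≤ c) (hx : 0 ≤ x) (hu : 0 ≤ u) (hy : 0 ≤ y) (hv : 0 ≤ v) (hz : 0 ≤ z) (hw : 0 ≤ w)
    (r1 : 0 ≤ -a - x - z + 2) (r2 : 0 ≤ -b - u - y + 2) (r3 : 0 ≤ -c - v - w + 2) (k1 : 0 ≤ -a + (13/25)) (k2 : 0 ≤ -b + (13/25)) (k3 : 0 ≤ -c + (13/25))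
    (hadm : Adm OutD (2 + a) (-x) (-z) (-u) (2 + b) (-y) w v (2 + c)) (d1 : 0 ≤ a + b - x - u + y + z) :
    0 ≤ a - u + w ∨ 0 ≤ b - x + v ∨ 0 ≤ a + b + c - x - u - y + v - z + w + 2 ∨ 0 ≤ a + b - c - x - u + y + v + z + w - 2 := by
  rcases hadm.o111.alts with h | h | h | h | h | h | h | h | h | h | h | h | h | h
  · exact Or.inl (by linarith only [h])
  · exfalso; linarith only [ha, hb, hy, hw, r2, h]
  · exact Or.inr (Or.inl (by linarith only [h]))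
  · exfalso; linarith only [ha, hb, hv, hz, r1, h]
  · exact Or.inr (Or.inr (Or.inl (by linarith only [hv, hw, k3, d1, h])))
  · exact Or.inl (by linarith only [ha, hb, hc, hx, hw, r1, r2, h])
  · exact Or.inr (Or.inr (Or.inl (by linarith only [h])))
  · exact Or.inr (Or.inl (by linarith only [hv, hw, k3, d1, h]))
  · exact Or.inl (by linarith only [hv, hw, k3, d1, h])
  · exfalso; linarith only [ha, hb, hy, hv, hz, hw, r1, r2, k3, h]
  · exact Or.inr (Or.inr (Or.inr (by linarith only [h])))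
  · exact Or.inr (Or.inl (by linarith only [ha, hb, hc, hx, hw, r1, r2, h]))
  · exact Or.inl (by linarith only [ha, hb, hc, hu, hv, r1, r2, h])
  · exfalso; linarith only [ha, hb, hc, hv, hw, r1, r2, h]

theorem class_D1 {T0 : ℝ} (hT : T0 ≤ 7413 / 1000) (a b c x u y v z w : ℝ)
    (ha : 0 ≤ a) (hb : 0 ≤ b) (hc : 0 ≤ c) (hx : 0 ≤ x) (hu : 0 ≤ u) (hy : 0 ≤ y) (hv : 0 ≤ v) (hz : 0 ≤ z) (hw : 0 ≤ w)
    (r1 : 0 ≤ -a - x - z + 2) (r2 : 0 ≤ -b - u - y + 2) (r3 : 0 ≤ -c - v - w + 2) (k1 : 0 ≤ -a + (13/25)) (k2 : 0 ≤ -b + (13/25)) (k3 : 0 ≤ -c + (13/25))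
    (hadm : Adm OutD (2 + a) (-x) (-z) (-u) (2 + b) (-y) w v (2 + c)) :
    T0 ≤ (2+a)*(2+b)*(2+c) + x*y*w + z*u*v + (2+a)*(y*v) + (2+b)*(z*w) - (2+c)*(x*u) := by
  have n0 := h99_class_D1_1 a b c x u y v z w ha hb hc hx hu hy hv hz hw r1 r2 r3 k1 k2 k3 hadm
  rcases n0 with d1 | d1 | d1
  · exact le_trans hT (leaf_D1_0 a b c x u y v z w ha hb hc hx hu hy hv hz hw r1 r2 r3 k1 k2 k3 d1)
  · exact le_trans hT (leaf_D1_1 a b c x u y v z w ha hb hc hx hu hy hv hz hw r1 r2 r3 k1 k2 k3 d1)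
  ·
    have n1 := h99_class_D1_2 a b c x u y v z w ha hb hc hx hu hy hv hz hw r1 r2 r3 k1 k2 k3 hadm d1
    rcases n1 with d2 | d2 | d2 | d2
    · exact le_trans hT (leaf_D1_2 a b c x u y v z w ha hb hc hx hu hy hv hz hw r1 r2 r3 k1 k2 k3 d1 d2)
    · exact le_trans hT (leaf_D1_3 a b c x u y v z w ha hb hc hx hu hy hv hz hw r1 r2 r3 k1 k2 k3 d1 d2)
    · exact le_trans hT (leaf_D1_4 a b c x u y v z w ha hb hc hx hu hy hv hz hw r1 r2 r3 k1 k2 k3 d1 d2)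
    · exact le_trans hT (leaf_D1_5 a b c x u y v z w ha hb hc hx hu hy hv hz hw r1 r2 r3 k1 k2 k3 d2)

end Pool.Agent.Helper84.KBM
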