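import Pool.Agent.Helper84.Tet.Defs
import Pool.Agent.Helper84.Dbl.LeafD2_0
import Pool.Agent.Helper84.Dbl.LeafD2_1
import Pool.Agent.Helper84.Dbl.LeafD2_2
import Pool.Agent.Helper84.Dbl.LeafD2_3
import Pool.Agent.Helper84.Dbl.LeafD2_4
set_option autoImplicit false
set_option maxRecDepth 100000
set_option linter.unusedVariables false
namespace Pool.Agent.Helper84.KBM
open Pool.Agent.Helper84.Tet (OutD Adm)
open Pool.Agent.Helper84.Dbl

private theorem h99_class_D2_1 (a b c x u y v z w : ℝ)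
    (ha : 0 ≤ a) (hb : 0 ≤ b) (hc : 0 ≤ c) (hx : 0 ≤ x) (hu : 0 ≤ u) (hy : 0 ≤ y) (hv : 0 ≤ v) (hz : 0 ≤ z) (hw : 0 ≤ w)
    (r1 : 0 ≤ -a - x - z + 2) (r2 : 0 ≤ -b - u - y + 2) (r3 : 0 ≤ -c - v - w + 2) (k1 : 0 ≤ -a + (13/25)) (k2 : 0 ≤ -b + (13/25)) (k3 : 0 ≤ -c + (13/25))
    (hadm : Adm OutD (2 + a) (-x) (-z) (-u) (2 + b) y w (-v) (2 + c)) :
    0 ≤ a - u ∨ 0 ≤ b - x ∨ 0 ≤ a + b - x - u + y - z ∨ 0 ≤ a + b - x - u - y + z := by
  rcases hadm.o110.alts with h | h | h | h | h | h | h | h | h | h | h | h | h | h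
  · exact Or.inl (by linarith only [h])
  · exfalso; linarith only [ha, hb, hy, r2, h]
  · exact Or.inr (Or.inl (by linarith only [h]))
  · exfalso; linarith only [ha, hb, hz, r1, h]
  · exact Or.inl (by linarith only [ha, hb, hz, r2, h])
  · exact Or.inr (Or.inl (by linarith only [ha, hb, hy, r1, h]))
  · exact Or.inr (Or.inr (Or.inl (by linarith only [h])))
  · exfalso; linarith only [ha, hx, hz, r2, h]
  · exact Or.inl (by linarith only [ha, hb, hz, r1, r2, h])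
  · exfalso; linarith only [ha, hb, hz, r1, r2, h]
  · exact Or.inr (Or.inr (Or.inr (by linarith only [h])))
  · exact Or.inr (Or.inl (by linarith only [ha, hb, hy, r1, r2, h]))
  · exfalso; linarith only [hb, hu, hy, r1, h]
  · exfalso; linarith only [ha, hb, hy, r1, r2, h]

private theorem h99_class_D2_2 (a b c x u y v z w : ℝ)
    (ha : 0 ≤ a) (hb : 0 ≤ b) (hc : 0 ≤ c) (hx : 0 ≤ x) (hu : 0 ≤ u) (hy : 0 ≤ y) (hv : 0 ≤ v) (hz : 0 ≤ z) (hw : 0 ≤ w)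
    (r1 : 0 ≤ -a - x - z + 2) (r2 : 0 ≤ -b - u - y + 2) (r3 : 0 ≤ -c - v - w + 2) (k1 : 0 ≤ -a + (13/25)) (k2 : 0 ≤ -b + (13/25)) (k3 : 0 ≤ -c + (13/25))
    (hadm : Adm OutD (2 + a) (-x) (-z) (-u) (2 + b) y w (-v) (2 + c)) (d1 : 0 ≤ a - u) :
    0 ≤ a - u - w ∨ 0 ≤ b - x + v ∨ 0 ≤ c - y + z ∨ 0 ≤ a + b + c - x - u - y + v + z - w + 2 := by
  rcases hadm.o11m.alts with h | h | h | h | h | h | h | h | h | h | h | h | h | h
  · exact Or.inl (by linarith only [h])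
  · exfalso; linarith only [hc, hv, r3, d1, h]
  · exact Or.inr (Or.inl (by linarith only [h]))
  · exfalso; linarith only [ha, hb, hv, hz, r1, h]
  · exfalso; linarith only [hb, hc, hu, hz, r2, h]
  · exact Or.inr (Or.inr (Or.inl (by linarith only [h])))
  · exact Or.inr (Or.inr (Or.inr (by linarith only [hb, hc, hu, hz, r2, h])))
  · exfalso; linarith only [ha, hc, hx, hz, r2, r3, h]
  · exfalso; linarith only [hb, hc, hu, hv, hz, hw, r1, r2, h]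
  · exfalso; linarith only [ha, hb, hc, hv, hz, r1, r2, r3, h]
  · exact Or.inr (Or.inr (Or.inr (by linarith only [h])))
  · exact Or.inr (Or.inr (Or.inr (by linarith only [hc, hv, r3, d1, h])))
  · exact Or.inr (Or.inr (Or.inl (by linarith only [hb, hu, hv, hz, hw, r1, h])))
  · exfalso; linarith only [ha, hb, hy, hv, r1, r3, d1, h]

private theorem h99_class_D2_3 (a b c x u y v z w : ℝ)
    (ha : 0 ≤ a) (hb : 0 ≤ b) (hc : 0 ≤ c) (hx : 0 ≤ x) (hu : 0 ≤ u) (hy : 0 ≤ y) (hv : 0 ≤ v) (hz : 0 ≤ z) (hw : 0 ≤ w)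
    (r1 : 0 ≤ -a - x - z + 2) (r2 : 0 ≤ -b - u - y + 2) (r3 : 0 ≤ -c - v - w + 2) (k1 : 0 ≤ -a + (13/25)) (k2 : 0 ≤ -b + (13/25)) (k3 : 0 ≤ -c + (13/25))
    (hadm : Adm OutD (2 + a) (-x) (-z) (-u) (2 + b) y w (-v) (2 + c)) (d1 : 0 ≤ b - x) :
    0 ≤ a - u + w ∨ 0 ≤ b - x - v ∨ 0 ≤ c + y - z ∨ 0 ≤ a + b + c - x - u + y - v - z + w + 2 := by
  rcases hadm.o111.alts with h | h | h | h | h | h | h | h | h | h | h | h | h | h
  · exact Or.inl (by linarith only [h])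
  · exfalso; linarith only [ha, hb, hy, hw, r2, h]
  · exact Or.inr (Or.inl (by linarith only [h]))
  · exfalso; linarith only [hc, hw, r3, d1, h]
  · exact Or.inr (Or.inr (Or.inl (by linarith only [h])))
  · exfalso; linarith only [ha, hc, hx, hy, r1, h]
  · exact Or.inr (Or.inr (Or.inr (by linarith only [h])))
  · exact Or.inr (Or.inr (Or.inl (by linarith only [ha, hx, hy, hv, hw, r2, h])))
  · exact Or.inr (Or.inr (Or.inr (by linarith only [hc, hw, r3, d1, h])))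
  · exfalso; linarith only [ha, hb, hz, hw, r2, r3, d1, h]
  · exact Or.inr (Or.inr (Or.inr (by linarith only [ha, hc, hx, hy, r1, h])))
  · exfalso; linarith only [ha, hc, hx, hy, hv, hw, r1, r2, h]
  · exfalso; linarith only [hb, hc, hu, hy, r1, r3, h]
  · exfalso; linarith only [ha, hb, hc, hy, hw, r1, r2, r3, h]

private theorem h99_class_D2_4 (a b c x u y v z w : ℝ)
    (ha : 0 ≤ a) (hb : 0 ≤ b) (hc : 0 ≤ c) (hx : 0 ≤ x) (hu : 0 ≤ u) (hy : 0 ≤ y) (hv : 0 ≤ v) (hz : 0 ≤ z) (hw : 0 ≤ w)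
    (r1 : 0 ≤ -a - x - z + 2) (r2 : 0 ≤ -b - u - y + 2) (r3 : 0 ≤ -c - v - w + 2) (k1 : 0 ≤ -a + (13/25)) (k2 : 0 ≤ -b + (13/25)) (k3 : 0 ≤ -c + (13/25))
    (hadm : Adm OutD (2 + a) (-x) (-z) (-u) (2 + b) y w (-v) (2 + c)) (d1 : 0 ≤ a + b - x - u + y - z) :
    0 ≤ a - u - w ∨ 0 ≤ b - x + v ∨ 0 ≤ a + b + c - x - u - y + v + z - w + 2 := by
  rcases hadm.o11m.alts with h | h | h | h | h | h | h | h | h | h | h | h | h | h
  · exact Or.inl (by linarith only [h])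
  · exfalso; linarith only [ha, hc, hx, hv, hz, r2, r3, d1, h]
  · exact Or.inr (Or.inl (by linarith only [h]))
  · exfalso; linarith only [ha, hb, hv, hz, r1, h]
  · exfalso; linarith only [hb, hc, hu, hz, r2, h]
  · exact Or.inr (Or.inr (by linarith only [hv, r3, d1, h]))
  · exact Or.inr (Or.inr (by linarith only [hb, hc, hu, hz, r2, h]))
  · exfalso; linarith only [ha, hc, hx, hz, r2, r3, h]
  · exfalso; linarith only [hb, hc, hu, hv, hz, hw, r1, r2, h]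
  · exfalso; linarith only [ha, hb, hc, hv, hz, r1, r2, r3, h]
  · exact Or.inr (Or.inr (by linarith only [h]))
  · exact Or.inr (Or.inl (by linarith only [hv, r3, d1, h]))
  · exfalso; linarith only [hu, hv, hw, k1, k3, d1, h]
  · exfalso; linarith only [hv, r3, d1, h]

private theorem h99_class_D2_5 (a b c x u y v z w : ℝ)
    (ha : 0 ≤ a) (hb : 0 ≤ b) (hc : 0 ≤ c) (hx : 0 ≤ x) (hu : 0 ≤ u) (hy : 0 ≤ y) (hv : 0 ≤ v) (hz : 0 ≤ z) (hw : 0 ≤ w)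
    (r1 : 0 ≤ -a - x - z + 2) (r2 : 0 ≤ -b - u - y + 2) (r3 : 0 ≤ -c - v - w + 2) (k1 : 0 ≤ -a + (13/25)) (k2 : 0 ≤ -b + (13/25)) (k3 : 0 ≤ -c + (13/25))
    (hadm : Adm OutD (2 + a) (-x) (-z) (-u) (2 + b) y w (-v) (2 + c)) (d1 : 0 ≤ a + b - x - u - y + z) :
    0 ≤ a - u + w ∨ 0 ≤ b - x - v ∨ 0 ≤ a + b + c - x - u + y - v - z + w + 2 := by
  rcases hadm.o111.alts with h | h | h | h | h | h | h | h | h | h | h | h | h | h
  · exact Or.inl (by linarith only [h])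
  · exfalso; linarith only [ha, hb, hy, hw, r2, h]
  · exact Or.inr (Or.inl (by linarith only [h]))
  · exfalso; linarith only [hb, hc, hu, hy, hw, r1, r3, d1, h]
  · exact Or.inr (Or.inr (by linarith only [hw, r3, d1, h]))
  · exfalso; linarith only [ha, hc, hx, hy, r1, h]
  · exact Or.inr (Or.inr (by linarith only [h]))
  · exfalso; linarith only [hx, hv, hw, k2, k3, d1, h]
  · exact Or.inl (by linarith only [hw, r3, d1, h])
  · exfalso; linarith only [hw, r3, d1, h]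
  · exact Or.inr (Or.inr (by linarith only [ha, hc, hx, hy, r1, h]))
  · exfalso; linarith only [ha, hc, hx, hy, hv, hw, r1, r2, h]
  · exfalso; linarith only [hb, hc, hu, hy, r1, r3, h]
  · exfalso; linarith only [ha, hb, hc, hy, hw, r1, r2, r3, h]

theorem class_D2 {T0 : ℝ} (hT : T0 ≤ 7413 / 1000) (a b c x u y v z w : ℝ)
    (ha : 0 ≤ a) (hb : 0 ≤ b) (hc : 0 ≤ c) (hx : 0 ≤ x) (hu : 0 ≤ u) (hy : 0 ≤ y) (hv : 0 ≤ v) (hz : 0 ≤ z) (hw : 0 ≤ w)
    (r1 : 0 ≤ -a - x - z + 2) (r2 : 0 ≤ -b - u - y + 2) (r3 : 0 ≤ -c - v - w + 2) (k1 : 0 ≤ -a + (13/25)) (k2 : 0 ≤ -b + (13/25)) (k3 : 0 ≤ -c + (13/25))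
    (hadm : Adm OutD (2 + a) (-x) (-z) (-u) (2 + b) y w (-v) (2 + c)) :
    T0 ≤ (2+a)*(2+b)*(2+c) - x*y*w - z*u*v + (2+a)*(y*v) + (2+b)*(z*w) - (2+c)*(x*u) := by
  have n0 := h99_class_D2_1 a b c x u y v z w ha hb hc hx hu hy hv hz hw r1 r2 r3 k1 k2 k3 hadm
  rcases n0 with d1 | d1 | d1 | d1
  ·
    have n1 := h99_class_D2_2 a b c x u y v z w ha hb hc hx hu hy hv hz hw r1 r2 r3 k1 k2 k3 hadm d1
    rcases n1 with d2 | d2 | d2 | d2
    · exact le_trans hT (leaf_D2_0 a b c x u y v z w ha hb hc hx hu hy hv hz hw r1 r2 r3 k1 k2 k3 d2)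
    · exact le_trans hT (leaf_D2_1 a b c x u y v z w ha hb hc hx hu hy hv hz hw r1 r2 r3 k1 k2 k3 d1 d2)
    · exact le_trans hT (leaf_D2_2 a b c x u y v z w ha hb hc hx hu hy hv hz hw r1 r2 r3 k1 k2 k3 d1 d2)
    · exact le_trans hT (leaf_D2_3 a b c x u y v z w ha hb hc hx hu hy hv hz hw r1 r2 r3 k1 k2 k3 d1 d2)
  ·
    have n2 := h99_class_D2_3 a b c x u y v z w ha hb hc hx hu hy hv hz hw r1 r2 r3 k1 k2 k3 hadm d1
    rcases n2 with d2 | d2 | d2 | d2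
    · exact le_trans hT (leaf_D2_4 a b c x u y v z w ha hb hc hx hu hy hv hz hw r1 r2 r3 k1 k2 k3 d1 d2)
    · exact le_trans hT (leaf_D2_5 a b c x u y v z w ha hb hc hx hu hy hv hz hw r1 r2 r3 k1 k2 k3 d2)
    · exact le_trans hT (leaf_D2_6 a b c x u y v z w ha hb hc hx hu hy hv hz hw r1 r2 r3 k1 k2 k3 d1 d2)
    · exact le_trans hT (leaf_D2_7 a b c x u y v z w ha hb hc hx hu hy hv hz hw r1 r2 r3 k1 k2 k3 d1 d2)
  ·
    have n3 := h99_class_D2_4 a b c x u y v z w ha hb hc hx hu hy hv hz hw r1 r2 r3 k1 k2 k3 hadm d1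
    rcases n3 with d2 | d2 | d2
    · exact le_trans hT (leaf_D2_8 a b c x u y v z w ha hb hc hx hu hy hv hz hw r1 r2 r3 k1 k2 k3 d1 d2)
    · exact le_trans hT (leaf_D2_9 a b c x u y v z w ha hb hc hx hu hy hv hz hw r1 r2 r3 k1 k2 k3 d1 d2)
    · exact le_trans hT (leaf_D2_10 a b c x u y v z w ha hb hc hx hu hy hv hz hw r1 r2 r3 k1 k2 k3 d1 d2)
  ·
    have n4 := h99_class_D2_5 a b c x u y v z w ha hb hc hx hu hy hv hz hw r1 r2 r3 k1 k2 k3 hadm d1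
    rcases n4 with d2 | d2 | d2
    · exact le_trans hT (leaf_D2_11 a b c x u y v z w ha hb hc hx hu hy hv hz hw r1 r2 r3 k1 k2 k3 d1 d2)
    · exact le_trans hT (leaf_D2_12 a b c x u y v z w ha hb hc hx hu hy hv hz hw r1 r2 r3 k1 k2 k3 d1 d2)
    · exact le_trans hT (leaf_D2_13 a b c x u y v z w ha hb hc hx hu hy hv hz hw r1 r2 r3 k1 k2 k3 d1 d2)

end Pool.Agent.Helper84.KBM
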