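import Pool.Agent.Helper84.KBM.TreeA
import Pool.Agent.Helper84.KBM.TreeB
import Pool.Agent.Helper84.KBM.TreeC
import Pool.Agent.Helper84.KBM.TreeD1
import Pool.Agent.Helper84.KBM.TreeD2
import Pool.Agent.Helper84.KBM.TreeE
import Pool.Agent.Helper84.KBM.Cells
import Pool.Agent.Helper84.Dbl.Core
/-!
# Local version: the volume estimate in all sign classes
-/
set_option autoImplicit false
set_option linter.unusedSectionVars false
namespace Pool.Agent.Helper84.KBM
open Pool.Agent.Helper84.Tet (OutD Adm det3)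
open Pool.Agent.Helper84.Dbl (d2 d2_le MC Neg OutT detA detA_swap12 detA_swap23 hole1 hole2)
open Pool.Agent.Helper58.KB (OutDK OutTK InK OutAll)

/-- The two sets of conditions together. -/
structure HK (Q p q r G m11 m12 m13 m21 m22 m23 m31 m32 m33 : ℝ) : Prop where
  t : Dbl.Hyp p q r G m11 m12 m13 m21 m22 m23 m31 m32 m33
  k : KH Q m11 m12 m13 m21 m22 m23 m31 m32 m33

theorem HK.swap12 {Q p q r G m11 m12 m13 m21 m22 m23 m31 m32 m33 : ℝ}
    (h : HK Q p q r G m11 m12 m13 m21 m22 m23 m31 m32 m33) :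
    HK Q q p r G m22 m21 m23 m12 m11 m13 m32 m31 m33 := ⟨h.t.swap12, h.k.swap12⟩

theorem HK.swap23 {Q p q r G m11 m12 m13 m21 m22 m23 m31 m32 m33 : ℝ}
    (h : HK Q p q r G m11 m12 m13 m21 m22 m23 m31 m32 m33) :
    HK Q p r q G m11 m13 m12 m31 m33 m32 m21 m23 m22 := ⟨h.t.swap23, h.k.swap23⟩

theorem HK.flip1 {Q p q r G m11 m12 m13 m21 m22 m23 m31 m32 m33 : ℝ}
    (h : HK Q p q r G m11 m12 m13 m21 m22 m23 m31 m32 m33) :
    HK Q p (-q) (-r) G m11 (-m12) (-m13) (-m21) m22 m23 (-m31) m32 m33 := ⟨h.t.flip1, h.k.flip1⟩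

theorem HK.flip2 {Q p q r G m11 m12 m13 m21 m22 m23 m31 m32 m33 : ℝ}
    (h : HK Q p q r G m11 m12 m13 m21 m22 m23 m31 m32 m33) :
    HK Q (-p) q (-r) G m11 (-m12) m13 (-m21) m22 (-m23) m31 (-m32) m33 := ⟨h.t.flip2, h.k.flip2⟩

theorem HK.flip3 {Q p q r G m11 m12 m13 m21 m22 m23 m31 m32 m33 : ℝ}
    (h : HK Q p q r G m11 m12 m13 m21 m22 m23 m31 m32 m33) :
    HK Q (-p) (-q) r G m11 m12 (-m13) m21 m22 (-m23) (-m31) (-m32) m33 := ⟨h.t.flip3, h.k.flip3⟩

theorem std_of_near {a b c x u y v z w : ℝ} (m : MC a b c x u y v z w)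
    (n : Near a b c x u y v z w) :
    Std (2 + a) (-x) (-z) (-u) (2 + b) (-y) (-w) (-v) (2 + c) := by
  obtain ⟨ha, hb, hc, hx, hu, hy, hv, hz, hw, r1, r2, r3, k1, k2, k3, g12, g13, g23, gv⟩ := m
  obtain ⟨na, nb, nc, nz, nx1, nx2, nu1, nu2, ny1, ny2, nv1, nv2, nw1, nw2⟩ := n
  constructor <;> linarith

section
variable {Q T0 : ℝ} (hT : T0 ≤ d2 + 1 / 10 ^ 9)
  (hstd : ∀ {m11 m12 m13 m21 m22 m23 m31 m32 m33 : ℝ},
    Std m11 m12 m13 m21 m22 m23 m31 m32 m33 → KH Q m11 m12 m13 m21 m22 m23 m31 m32 m33 →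
    T0 ≤ det3 m11 m12 m13 m21 m22 m23 m31 m32 m33)

theorem hT2 {T0 : ℝ} (hT : T0 ≤ d2 + 1 / 10 ^ 9) : T0 ≤ 7413 / 1000 := by
  have h : (316227 / 100000 : ℝ) ≤ Real.sqrt 10 := by
    apply Real.le_sqrt_of_sq_le
    norm_num
  unfold d2 at hT
  linarith

include hT hstd

theorem neg_of {a b c x u y v z w : ℝ} (mc : MC a b c x u y v z w)
    (k : KH Q (2 + a) (-x) (-z) (-u) (2 + b) (-y) (-w) (-v) (2 + c))
    (hd : detA a b c x u y v z w < T0) : Neg a b c x u y v z w := by
  have hd' : detA a b c x u y v z w < d2 + 1 / 10 ^ 9 := by linarith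
  rcases near_cases mc hd' with n | n | n | n | n | n | n
  · exact n
  · exfalso
    have t := hstd (std_of_near mc n) k
    unfold det3 at t
    unfold detA at hd
    linarith
  · exfalso
    have t := hstd (std_of_near mc.swap12 n) k.swap12
    unfold det3 at t
    unfold detA at hd
    linarith
  · exfalso
    have t := hstd (std_of_near mc.swap23 n) k.swap23
    unfold det3 at t
    unfold detA at hd
    linarith
  · exfalso
    have t := hstd (std_of_near mc.swap23.swap12 n) k.swap23.swap12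
    unfold det3 at t
    unfold detA at hd
    linarith
  · exfalso
    have t := hstd (std_of_near mc.swap12.swap23 n) k.swap12.swap23
    unfold det3 at t
    unfold detA at hd
    linarith
  · exfalso
    have t := hstd (std_of_near mc.swap23.swap12.swap23 n) k.swap23.swap12.swap23
    unfold det3 at t
    unfold detA at hd
    linarith

theorem hypA {p q r G a b c x u y v z w : ℝ}
    (h : HK Q p q r G (2 + a) (-x) (-z) (-u) (2 + b) (-y) (-w) (-v) (2 + c))
    (hx : 0 ≤ x) (hu : 0 ≤ u) (hy : 0 ≤ y) (hv : 0 ≤ v) (hz : 0 ≤ z) (hw : 0 ≤ w) :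
    T0 ≤ detA a b c x u y v z w := by
  have r1 := h.t.r1
  have r2 := h.t.r2
  have r3 := h.t.r3
  have e1 := h.t.d1
  have e2 := h.t.d2
  have e3 := h.t.d3
  have k1 := h.t.k1
  have k2 := h.t.k2
  have k3 := h.t.k3
  simp only [abs_neg, abs_of_nonneg hx, abs_of_nonneg hu, abs_of_nonneg hy, abs_of_nonneg hv,
    abs_of_nonneg hz, abs_of_nonneg hw] at r1 r2 r3
  have key := class_A (hT2 hT)
    (KK := fun a b c x u y v z w => KH Q (2 + a) (-x) (-z) (-u) (2 + b) (-y) (-w) (-v) (2 + c))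
    (fun h => h.swap12) (fun h => h.swap23) (cellA17 hT hstd) a b c x u y v z w (by linarith only [e1]) (by linarith only [e2])
    (by linarith only [e3]) hx hu hy hv hz hw (by linarith only [r1]) (by linarith only [r2])
    (by linarith only [r3]) (by linarith only [k1]) (by linarith only [k2])
    (by linarith only [k3]) h.t.adm h.k
  rcases key with key | ⟨g12, g13, g23, gv⟩
  · exact key
  by_contra hd
  push Not at hd
  have mc : MC a b c x u y v z w :=
    ⟨by linarith only [e1], by linarith only [e2], by linarith only [e3], hx, hu, hy, hv, hz, hw,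
      by linarith only [r1], by linarith only [r2], by linarith only [r3],
      by linarith only [k1], by linarith only [k2], by linarith only [k3], g12, g13, g23, gv⟩
  have o := h.t.out
  have c1 : ∀ {a b c x u y v z w p q r : ℝ}, MC a b c x u y v z w →
      KH Q (2 + a) (-x) (-z) (-u) (2 + b) (-y) (-w) (-v) (2 + c) →
      detA a b c x u y v z w < T0 → -p - q - r ≤ G → -p + q + r ≤ G → p - q + r ≤ G →
      p + q - r ≤ G → G ≤ -p - q - r →
      (∀ i j k : ℤ, OutT G (p + i * (2 + a) + j * (-u) + k * (-w))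
        (q + i * (-x) + j * (2 + b) + k * (-v)) (r + i * (-z) + j * (-y) + k * (2 + c))) →
      False := by
    intro a b c x u y v z w p q r mc kk hd u1 u2 u3 u4 att o
    refine hole1 mc (neg_of hT hstd mc kk hd) h.t.hG u1 u2 u3 u4 att ?_ ?_ ?_ ?_ ?_ ?_ ?_
    · have t := o 1 1 1; push_cast at t; convert t using 1 <;> ring
    · have t := o 0 1 1; push_cast at t; convert t using 1 <;> ring
    · have t := o 1 0 1; push_cast at t; convert t using 1 <;> ring
    · have t := o 1 1 0; push_cast at t; convert t using 1 <;> ring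
    · have t := o 1 0 0; push_cast at t; convert t using 1 <;> ring
    · have t := o 0 1 0; push_cast at t; convert t using 1 <;> ring
    · have t := o 0 0 1; push_cast at t; convert t using 1 <;> ring
  have c2 : ∀ {a b c x u y v z w p q r : ℝ}, MC a b c x u y v z w →
      KH Q (2 + a) (-x) (-z) (-u) (2 + b) (-y) (-w) (-v) (2 + c) →
      detA a b c x u y v z w < T0 → -p - q - r ≤ G → -p + q + r ≤ G → p - q + r ≤ G →
      p + q - r ≤ G → G ≤ -p + q + r →
      (∀ i j k : ℤ, OutT G (p + i * (2 + a) + j * (-u) + k * (-w))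
        (q + i * (-x) + j * (2 + b) + k * (-v)) (r + i * (-z) + j * (-y) + k * (2 + c))) →
      False := by
    intro a b c x u y v z w p q r mc kk hd u1 u2 u3 u4 att o
    refine hole2 mc (neg_of hT hstd mc kk hd) h.t.hG u1 u2 u3 u4 att ?_ ?_ ?_ ?_ ?_ ?_ ?_
    · have t := o (-1) (-1) (-1); push_cast at t; convert t using 1 <;> ring
    · have t := o 1 0 1; push_cast at t; convert t using 1 <;> ring
    · have t := o 1 1 0; push_cast at t; convert t using 1 <;> ring
    · have t := o 1 0 0; push_cast at t; convert t using 1 <;> ring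
    · have t := o 0 (-1) 0; push_cast at t; convert t using 1 <;> ring
    · have t := o 0 0 (-1); push_cast at t; convert t using 1 <;> ring
    · have t := o 0 (-1) (-1); push_cast at t; convert t using 1 <;> ring
  have att := o 0 0 0
  simp only [Int.cast_zero, zero_mul, add_zero] at att
  rcases att with att | att | att | att
  · exact c1 mc h.k hd h.t.u1 h.t.u2 h.t.u3 h.t.u4 att o
  · exact c2 mc h.k hd h.t.u1 h.t.u2 h.t.u3 h.t.u4 att o
  · have s := h.swap12
    have hd' : detA b a c u x z w y v < T0 := by rw [detA_swap12]; exact hd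
    exact c2 mc.swap12 s.k hd' s.t.u1 s.t.u2 s.t.u3 s.t.u4 (by linarith) s.t.out
  · have s := h.swap23.swap12
    have hd' : detA c a b w z x u v y < T0 := by rw [detA_swap12, detA_swap23]; exact hd
    exact c2 mc.swap23.swap12 s.k hd' s.t.u1 s.t.u2 s.t.u3 s.t.u4 (by linarith) s.t.out

theorem conclA {p q r G m11 m12 m13 m21 m22 m23 m31 m32 m33 : ℝ}
    (h : HK Q p q r G m11 m12 m13 m21 m22 m23 m31 m32 m33) (s12 : m12 ≤ 0) (s13 : m13 ≤ 0) (s21 : m21 ≤ 0) (s23 : m23 ≤ 0) (s31 : m31 ≤ 0) (s32 : m32 ≤ 0) :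
    T0 ≤ det3 m11 m12 m13 m21 m22 m23 m31 m32 m33 := by
  have h2 : HK Q p q r G (2 + (m11 - 2)) (-(-m12)) (-(-m13)) (-(-m21)) (2 + (m22 - 2)) (-(-m23))
      (-(-m31)) (-(-m32)) (2 + (m33 - 2)) := by
    convert h using 1 <;> ring
  have h3 := hypA hT hstd h2 (neg_nonneg.mpr s12) (neg_nonneg.mpr s21) (neg_nonneg.mpr s23)
    (neg_nonneg.mpr s32) (neg_nonneg.mpr s13) (neg_nonneg.mpr s31)
  unfold detA at h3
  unfold det3
  linarith only [h3]

theorem conclB {p q r G m11 m12 m13 m21 m22 m23 m31 m32 m33 : ℝ}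
    (h : HK Q p q r G m11 m12 m13 m21 m22 m23 m31 m32 m33) (s12 : 0 ≤ m12) (s13 : 0 ≤ m13) (s21 : 0 ≤ m21) (s23 : 0 ≤ m23) (s31 : 0 ≤ m31) (s32 : 0 ≤ m32) :
    T0 ≤ det3 m11 m12 m13 m21 m22 m23 m31 m32 m33 := by
  obtain ⟨⟨e1, e2, e3, k1, k2, k3, r1, r2, r3, adm, -, -, -, -, -, -⟩, hk⟩ := h
  rw [abs_of_nonneg s12, abs_of_nonneg s13] at r1
  rw [abs_of_nonneg s21, abs_of_nonneg s23] at r2
  rw [abs_of_nonneg s31, abs_of_nonneg s32] at r3
  have adm2 : Adm OutD (2 + (m11 - 2)) m12 m13 m21 (2 + (m22 - 2)) m23 m31 m32 (2 + (m33 - 2)) := by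
    convert adm using 1 <;> ring
  have hk2 : KH Q (2 + (m11 - 2)) m12 m13 m21 (2 + (m22 - 2)) m23 m31 m32 (2 + (m33 - 2)) := by
    convert hk using 1 <;> ring
  have key := class_B (hT2 hT)
    (KK := fun a b c x u y v z w => KH Q (2 + a) x z u (2 + b) y w v (2 + c))
    (fun h => h.swap12) (fun h => h.swap23) (cellB14 hT hstd) (m11 - 2) (m22 - 2) (m33 - 2) m12 m21 m23 m32 m13 m31 (by linarith only [e1])
    (by linarith only [e2]) (by linarith only [e3]) (by linarith only [s12]) (by linarith only [s21]) (by linarith only [s23]) (by linarith only [s32])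
    (by linarith only [s13]) (by linarith only [s31]) (by linarith only [r1]) (by linarith only [r2]) (by linarith only [r3]) (by linarith only [k1])
    (by linarith only [k2]) (by linarith only [k3]) adm2 hk2
  unfold det3
  linarith only [key]

theorem conclC {p q r G m11 m12 m13 m21 m22 m23 m31 m32 m33 : ℝ}
    (h : HK Q p q r G m11 m12 m13 m21 m22 m23 m31 m32 m33) (s12 : m12 ≤ 0) (s13 : m13 ≤ 0) (s21 : m21 ≤ 0) (s23 : 0 ≤ m23) (s31 : m31 ≤ 0) (s32 : m32 ≤ 0) :
    T0 ≤ det3 m11 m12 m13 m21 m22 m23 m31 m32 m33 := by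
  obtain ⟨⟨e1, e2, e3, k1, k2, k3, r1, r2, r3, adm, -, -, -, -, -, -⟩, hk⟩ := h
  rw [abs_of_nonpos s12, abs_of_nonpos s13] at r1
  rw [abs_of_nonpos s21, abs_of_nonneg s23] at r2
  rw [abs_of_nonpos s31, abs_of_nonpos s32] at r3
  have adm2 : Adm OutD (2 + (m11 - 2)) (-(-m12)) (-(-m13)) (-(-m21)) (2 + (m22 - 2)) m23 (-(-m31)) (-(-m32)) (2 + (m33 - 2)) := by
    convert adm using 1 <;> ring
  have hk2 : KH Q (2 + (m11 - 2)) (-(-m12)) (-(-m13)) (-(-m21)) (2 + (m22 - 2)) m23 (-(-m31)) (-(-m32)) (2 + (m33 - 2)) := by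
    convert hk using 1 <;> ring
  have key := class_C (hT2 hT)
    (KK := fun a b c x u y v z w => KH Q (2 + a) (-x) (-z) (-u) (2 + b) y (-w) (-v) (2 + c))
    (cellC26 hT hstd) (cellC28 hT hstd) (m11 - 2) (m22 - 2) (m33 - 2) (-m12) (-m21) m23 (-m32) (-m13) (-m31) (by linarith only [e1])
    (by linarith only [e2]) (by linarith only [e3]) (by linarith only [s12]) (by linarith only [s21]) (by linarith only [s23]) (by linarith only [s32])
    (by linarith only [s13]) (by linarith only [s31]) (by linarith only [r1]) (by linarith only [r2]) (by linarith only [r3]) (by linarith only [k1])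
    (by linarith only [k2]) (by linarith only [k3]) adm2 hk2
  unfold det3
  linarith only [key]

theorem conclD1 {p q r G m11 m12 m13 m21 m22 m23 m31 m32 m33 : ℝ}
    (h : HK Q p q r G m11 m12 m13 m21 m22 m23 m31 m32 m33) (s12 : m12 ≤ 0) (s13 : m13 ≤ 0) (s21 : m21 ≤ 0) (s23 : m23 ≤ 0) (s31 : 0 ≤ m31) (s32 : 0 ≤ m32) :
    T0 ≤ det3 m11 m12 m13 m21 m22 m23 m31 m32 m33 := by
  obtain ⟨⟨e1, e2, e3, k1, k2, k3, r1, r2, r3, adm, -, -, -, -, -, -⟩, hk⟩ := h
  rw [abs_of_nonpos s12, abs_of_nonpos s13] at r1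
  rw [abs_of_nonpos s21, abs_of_nonpos s23] at r2
  rw [abs_of_nonneg s31, abs_of_nonneg s32] at r3
  have adm2 : Adm OutD (2 + (m11 - 2)) (-(-m12)) (-(-m13)) (-(-m21)) (2 + (m22 - 2)) (-(-m23)) m31 m32 (2 + (m33 - 2)) := by
    convert adm using 1 <;> ring
  have key := class_D1 (hT2 hT) (m11 - 2) (m22 - 2) (m33 - 2) (-m12) (-m21) (-m23) m32 (-m13) m31 (by linarith only [e1])
    (by linarith only [e2]) (by linarith only [e3]) (by linarith only [s12]) (by linarith only [s21]) (by linarith only [s23]) (by linarith only [s32])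
    (by linarith only [s13]) (by linarith only [s31]) (by linarith only [r1]) (by linarith only [r2]) (by linarith only [r3]) (by linarith only [k1])
    (by linarith only [k2]) (by linarith only [k3]) adm2
  unfold det3
  linarith only [key]

theorem conclD2 {p q r G m11 m12 m13 m21 m22 m23 m31 m32 m33 : ℝ}
    (h : HK Q p q r G m11 m12 m13 m21 m22 m23 m31 m32 m33) (s12 : m12 ≤ 0) (s13 : m13 ≤ 0) (s21 : m21 ≤ 0) (s23 : 0 ≤ m23) (s31 : 0 ≤ m31) (s32 : m32 ≤ 0) :
    T0 ≤ det3 m11 m12 m13 m21 m22 m23 m31 m32 m33 := by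
  obtain ⟨⟨e1, e2, e3, k1, k2, k3, r1, r2, r3, adm, -, -, -, -, -, -⟩, hk⟩ := h
  rw [abs_of_nonpos s12, abs_of_nonpos s13] at r1
  rw [abs_of_nonpos s21, abs_of_nonneg s23] at r2
  rw [abs_of_nonneg s31, abs_of_nonpos s32] at r3
  have adm2 : Adm OutD (2 + (m11 - 2)) (-(-m12)) (-(-m13)) (-(-m21)) (2 + (m22 - 2)) m23 m31 (-(-m32)) (2 + (m33 - 2)) := by
    convert adm using 1 <;> ring
  have key := class_D2 (hT2 hT) (m11 - 2) (m22 - 2) (m33 - 2) (-m12) (-m21) m23 (-m32) (-m13) m31 (by linarith only [e1])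
    (by linarith only [e2]) (by linarith only [e3]) (by linarith only [s12]) (by linarith only [s21]) (by linarith only [s23]) (by linarith only [s32])
    (by linarith only [s13]) (by linarith only [s31]) (by linarith only [r1]) (by linarith only [r2]) (by linarith only [r3]) (by linarith only [k1])
    (by linarith only [k2]) (by linarith only [k3]) adm2
  unfold det3
  linarith only [key]

theorem conclE {p q r G m11 m12 m13 m21 m22 m23 m31 m32 m33 : ℝ}
    (h : HK Q p q r G m11 m12 m13 m21 m22 m23 m31 m32 m33) (s12 : m12 ≤ 0) (s13 : 0 ≤ m13) (s21 : 0 ≤ m21) (s23 : m23 ≤ 0) (s31 : m31 ≤ 0) (s32 : 0 ≤ m32) :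
    T0 ≤ det3 m11 m12 m13 m21 m22 m23 m31 m32 m33 := by
  obtain ⟨⟨e1, e2, e3, k1, k2, k3, r1, r2, r3, adm, -, -, -, -, -, -⟩, hk⟩ := h
  rw [abs_of_nonpos s12, abs_of_nonneg s13] at r1
  rw [abs_of_nonneg s21, abs_of_nonpos s23] at r2
  rw [abs_of_nonpos s31, abs_of_nonneg s32] at r3
  have adm2 : Adm OutD (2 + (m11 - 2)) (-(-m12)) m13 m21 (2 + (m22 - 2)) (-(-m23)) (-(-m31)) m32 (2 + (m33 - 2)) := by
    convert adm using 1 <;> ring
  have key := class_E (hT2 hT) (m11 - 2) (m22 - 2) (m33 - 2) (-m12) m21 (-m23) m32 m13 (-m31) (by linarith only [e1])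
    (by linarith only [e2]) (by linarith only [e3]) (by linarith only [s12]) (by linarith only [s21]) (by linarith only [s23]) (by linarith only [s32])
    (by linarith only [s13]) (by linarith only [s31]) (by linarith only [r1]) (by linarith only [r2]) (by linarith only [r3]) (by linarith only [k1])
    (by linarith only [k2]) (by linarith only [k3]) adm2
  unfold det3
  linarith only [key]

omit hT hstd in
private theorem h99_det_swap12 (m11 m12 m13 m21 m22 m23 m31 m32 m33 : ℝ) :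
    det3 m22 m21 m23 m12 m11 m13 m32 m31 m33 = det3 m11 m12 m13 m21 m22 m23 m31 m32 m33 := by
  unfold det3
  ring

omit hT hstd in
private theorem h99_det_swap23 (m11 m12 m13 m21 m22 m23 m31 m32 m33 : ℝ) :
    det3 m11 m13 m12 m31 m33 m32 m21 m23 m22 = det3 m11 m12 m13 m21 m22 m23 m31 m32 m33 := by
  unfold det3
  ring

omit hT hstd in
private theorem h99_det_flip1 (m11 m12 m13 m21 m22 m23 m31 m32 m33 : ℝ) :
    det3 m11 (-m12) (-m13) (-m21) m22 m23 (-m31) m32 m33 =
      det3 m11 m12 m13 m21 m22 m23 m31 m32 m33 := by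
  unfold det3
  ring

omit hT hstd in
private theorem h99_det_flip2 (m11 m12 m13 m21 m22 m23 m31 m32 m33 : ℝ) :
    det3 m11 (-m12) m13 (-m21) m22 (-m23) m31 (-m32) m33 =
      det3 m11 m12 m13 m21 m22 m23 m31 m32 m33 := by
  unfold det3
  ring

omit hT hstd in
private theorem h99_det_flip3 (m11 m12 m13 m21 m22 m23 m31 m32 m33 : ℝ) :
    det3 m11 m12 (-m13) m21 m22 (-m23) (-m31) (-m32) m33 =
      det3 m11 m12 m13 m21 m22 m23 m31 m32 m33 := by
  unfold det3
  ring

theorem core {p q r G m11 m12 m13 m21 m22 m23 m31 m32 m33 : ℝ}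
    (h : HK Q p q r G m11 m12 m13 m21 m22 m23 m31 m32 m33) :
    T0 ≤ det3 m11 m12 m13 m21 m22 m23 m31 m32 m33 := by
  rcases le_total 0 m12 with s12 | s12 <;> rcases le_total 0 m13 with s13 | s13 <;>
  rcases le_total 0 m21 with s21 | s21 <;> rcases le_total 0 m23 with s23 | s23 <;>
  rcases le_total 0 m31 with s31 | s31 <;> rcases le_total 0 m32 with s32 | s32
  · exact conclB hT hstd h s12 s13 s21 s23 s31 s32
  · have h3 := conclC hT hstd h.flip1 (neg_nonpos.mpr s12) (neg_nonpos.mpr s13) (neg_nonpos.mpr s21) s23 (neg_nonpos.mpr s31) s32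
    rw [h99_det_flip1] at h3
    exact h3
  · have h3 := conclC hT hstd h.swap12.flip1 (neg_nonpos.mpr s21) (neg_nonpos.mpr s23) (neg_nonpos.mpr s12) s13 (neg_nonpos.mpr s32) s31
    rw [h99_det_flip1, h99_det_swap12] at h3
    exact h3
  · have h3 := conclD2 hT hstd h.flip1 (neg_nonpos.mpr s12) (neg_nonpos.mpr s13) (neg_nonpos.mpr s21) s23 (neg_nonneg.mpr s31) s32
    rw [h99_det_flip1] at h3
    exact h3
  · have h3 := conclC hT hstd h.swap23.flip1 (neg_nonpos.mpr s13) (neg_nonpos.mpr s12) (neg_nonpos.mpr s31) s32 (neg_nonpos.mpr s21) s23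
    rw [h99_det_flip1, h99_det_swap23] at h3
    exact h3
  · have h3 := conclA hT hstd h.flip1 (neg_nonpos.mpr s12) (neg_nonpos.mpr s13) (neg_nonpos.mpr s21) s23 (neg_nonpos.mpr s31) s32
    rw [h99_det_flip1] at h3
    exact h3
  · have h3 := conclD1 hT hstd h.flip1 (neg_nonpos.mpr s12) (neg_nonpos.mpr s13) (neg_nonpos.mpr s21) s23 (neg_nonneg.mpr s31) s32
    rw [h99_det_flip1] at h3
    exact h3
  · have h3 := conclC hT hstd h.swap12.swap23.flip3 s23 (neg_nonpos.mpr s21) s32 (neg_nonneg.mpr s31) (neg_nonpos.mpr s12) (neg_nonpos.mpr s13)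
    rw [h99_det_flip3, h99_det_swap23, h99_det_swap12] at h3
    exact h3
  · have h3 := conclC hT hstd h.swap23.swap12.flip1 (neg_nonpos.mpr s31) (neg_nonpos.mpr s32) (neg_nonpos.mpr s13) s12 (neg_nonpos.mpr s23) s21
    rw [h99_det_flip1, h99_det_swap12, h99_det_swap23] at h3
    exact h3
  · have h3 := conclD1 hT hstd h.swap23.flip1 (neg_nonpos.mpr s13) (neg_nonpos.mpr s12) (neg_nonpos.mpr s31) s32 (neg_nonneg.mpr s21) s23
    rw [h99_det_flip1, h99_det_swap23] at h3
    exact h3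
  · have h3 := conclD2 hT hstd h.swap12.swap23.flip2 (neg_nonpos.mpr s23) s21 (neg_nonpos.mpr s32) (neg_nonneg.mpr s31) s12 (neg_nonpos.mpr s13)
    rw [h99_det_flip2, h99_det_swap23, h99_det_swap12] at h3
    exact h3
  · have h3 := conclE hT hstd h.flip2 (neg_nonpos.mpr s12) s13 (neg_nonneg.mpr s21) (neg_nonpos.mpr s23) s31 (neg_nonneg.mpr s32)
    rw [h99_det_flip2] at h3
    exact h3
  · have h3 := conclD2 hT hstd h.swap23.flip1 (neg_nonpos.mpr s13) (neg_nonpos.mpr s12) (neg_nonpos.mpr s31) s32 (neg_nonneg.mpr s21) s23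
    rw [h99_det_flip1, h99_det_swap23] at h3
    exact h3
  · have h3 := conclC hT hstd h.swap12.swap23.swap12.flip3 s32 (neg_nonpos.mpr s31) s23 (neg_nonneg.mpr s21) (neg_nonpos.mpr s13) (neg_nonpos.mpr s12)
    rw [h99_det_flip3, h99_det_swap12, h99_det_swap23, h99_det_swap12] at h3
    exact h3
  · have h3 := conclE hT hstd h.swap12.flip3 s21 (neg_nonneg.mpr s23) s12 (neg_nonpos.mpr s13) (neg_nonpos.mpr s32) (neg_nonneg.mpr s31)
    rw [h99_det_flip3, h99_det_swap12] at h3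
    exact h3
  · have h3 := conclD1 hT hstd h.swap12.swap23 s23 s21 s32 s31 s12 s13
    rw [h99_det_swap23, h99_det_swap12] at h3
    exact h3
  · have h3 := conclC hT hstd h.swap12.swap23.flip1 (neg_nonpos.mpr s23) (neg_nonpos.mpr s21) (neg_nonpos.mpr s32) s31 (neg_nonpos.mpr s12) s13
    rw [h99_det_flip1, h99_det_swap23, h99_det_swap12] at h3
    exact h3
  · have h3 := conclD1 hT hstd h.flip2 (neg_nonpos.mpr s12) s13 (neg_nonpos.mpr s21) (neg_nonpos.mpr s23) s31 (neg_nonneg.mpr s32)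
    rw [h99_det_flip2] at h3
    exact h3
  · have h3 := conclA hT hstd h.flip2 (neg_nonpos.mpr s12) s13 (neg_nonpos.mpr s21) (neg_nonpos.mpr s23) s31 (neg_nonpos.mpr s32)
    rw [h99_det_flip2] at h3
    exact h3
  · have h3 := conclC hT hstd h.swap23.flip3 s13 (neg_nonpos.mpr s12) s31 (neg_nonneg.mpr s32) (neg_nonpos.mpr s21) (neg_nonpos.mpr s23)
    rw [h99_det_flip3, h99_det_swap23] at h3
    exact h3
  · have h3 := conclD2 hT hstd h.flip2 (neg_nonpos.mpr s12) s13 (neg_nonpos.mpr s21) (neg_nonneg.mpr s23) s31 (neg_nonpos.mpr s32)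
    rw [h99_det_flip2] at h3
    exact h3
  · have h3 := conclC hT hstd h.swap12.flip2 (neg_nonpos.mpr s21) s23 (neg_nonpos.mpr s12) (neg_nonneg.mpr s13) s32 (neg_nonpos.mpr s31)
    rw [h99_det_flip2, h99_det_swap12] at h3
    exact h3
  · have h3 := conclC hT hstd h.flip2 (neg_nonpos.mpr s12) s13 (neg_nonpos.mpr s21) (neg_nonneg.mpr s23) s31 (neg_nonpos.mpr s32)
    rw [h99_det_flip2] at h3
    exact h3
  · have h3 := conclB hT hstd h.flip3 s12 (neg_nonneg.mpr s13) s21 (neg_nonneg.mpr s23) (neg_nonneg.mpr s31) (neg_nonneg.mpr s32)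
    rw [h99_det_flip3] at h3
    exact h3
  · have h3 := conclD1 hT hstd h.swap12.swap23.flip2 (neg_nonpos.mpr s23) s21 (neg_nonpos.mpr s32) (neg_nonpos.mpr s31) s12 (neg_nonneg.mpr s13)
    rw [h99_det_flip2, h99_det_swap23, h99_det_swap12] at h3
    exact h3
  · have h3 := conclE hT hstd h.swap12 s21 s23 s12 s13 s32 s31
    rw [h99_det_swap12] at h3
    exact h3
  · have h3 := conclC hT hstd h.swap12.swap23.swap12.flip2 (neg_nonpos.mpr s32) s31 (neg_nonpos.mpr s23) (neg_nonneg.mpr s21) s13 (neg_nonpos.mpr s12)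
    rw [h99_det_flip2, h99_det_swap12, h99_det_swap23, h99_det_swap12] at h3
    exact h3
  · have h3 := conclD2 hT hstd h.swap23.swap12 s31 s32 s13 s12 s23 s21
    rw [h99_det_swap12, h99_det_swap23] at h3
    exact h3
  · have h3 := conclE hT hstd h.flip1 (neg_nonpos.mpr s12) (neg_nonneg.mpr s13) (neg_nonneg.mpr s21) s23 (neg_nonpos.mpr s31) s32
    rw [h99_det_flip1] at h3
    exact h3
  · have h3 := conclD2 hT hstd h.swap12.swap23 s23 s21 s32 s31 s12 s13
    rw [h99_det_swap23, h99_det_swap12] at h3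
    exact h3
  · have h3 := conclD1 hT hstd h.swap23.flip3 s13 (neg_nonpos.mpr s12) s31 (neg_nonpos.mpr s32) (neg_nonneg.mpr s21) (neg_nonneg.mpr s23)
    rw [h99_det_flip3, h99_det_swap23] at h3
    exact h3
  · have h3 := conclC hT hstd h.swap23.swap12 s31 s32 s13 s12 s23 s21
    rw [h99_det_swap12, h99_det_swap23] at h3
    exact h3
  · have h3 := conclC hT hstd h.swap12.swap23.swap12.flip1 (neg_nonpos.mpr s32) (neg_nonpos.mpr s31) (neg_nonpos.mpr s23) s21 (neg_nonpos.mpr s13) s12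
    rw [h99_det_flip1, h99_det_swap12, h99_det_swap23, h99_det_swap12] at h3
    exact h3
  · have h3 := conclD2 hT hstd h.swap23.flip2 (neg_nonpos.mpr s13) s12 (neg_nonpos.mpr s31) (neg_nonneg.mpr s32) s21 (neg_nonpos.mpr s23)
    rw [h99_det_flip2, h99_det_swap23] at h3
    exact h3
  · have h3 := conclD1 hT hstd h.swap12.swap23.flip1 (neg_nonpos.mpr s23) (neg_nonpos.mpr s21) (neg_nonpos.mpr s32) s31 (neg_nonneg.mpr s12) s13
    rw [h99_det_flip1, h99_det_swap23, h99_det_swap12] at h3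
    exact h3
  · have h3 := conclE hT hstd h.swap12.flip2 (neg_nonpos.mpr s21) s23 (neg_nonneg.mpr s12) (neg_nonpos.mpr s13) s32 (neg_nonneg.mpr s31)
    rw [h99_det_flip2, h99_det_swap12] at h3
    exact h3
  · have h3 := conclD1 hT hstd h.swap23.flip2 (neg_nonpos.mpr s13) s12 (neg_nonpos.mpr s31) (neg_nonpos.mpr s32) s21 (neg_nonneg.mpr s23)
    rw [h99_det_flip2, h99_det_swap23] at h3
    exact h3
  · have h3 := conclC hT hstd h.swap23.swap12.flip2 (neg_nonpos.mpr s31) s32 (neg_nonpos.mpr s13) (neg_nonneg.mpr s12) s23 (neg_nonpos.mpr s21)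
    rw [h99_det_flip2, h99_det_swap12, h99_det_swap23] at h3
    exact h3
  · exact conclE hT hstd h s12 s13 s21 s23 s31 s32
  · have h3 := conclD2 hT hstd h.swap12.swap23.swap12 s32 s31 s23 s21 s13 s12
    rw [h99_det_swap12, h99_det_swap23, h99_det_swap12] at h3
    exact h3
  · have h3 := conclA hT hstd h.flip3 s12 (neg_nonpos.mpr s13) s21 (neg_nonpos.mpr s23) (neg_nonpos.mpr s31) (neg_nonpos.mpr s32)
    rw [h99_det_flip3] at h3
    exact h3
  · have h3 := conclC hT hstd h.swap23.flip2 (neg_nonpos.mpr s13) s12 (neg_nonpos.mpr s31) (neg_nonneg.mpr s32) s21 (neg_nonpos.mpr s23)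
    rw [h99_det_flip2, h99_det_swap23] at h3
    exact h3
  · have h3 := conclC hT hstd h.swap12.swap23.flip2 (neg_nonpos.mpr s23) s21 (neg_nonpos.mpr s32) (neg_nonneg.mpr s31) s12 (neg_nonpos.mpr s13)
    rw [h99_det_flip2, h99_det_swap23, h99_det_swap12] at h3
    exact h3
  · have h3 := conclD1 hT hstd h.flip3 s12 (neg_nonpos.mpr s13) s21 (neg_nonpos.mpr s23) (neg_nonneg.mpr s31) (neg_nonneg.mpr s32)
    rw [h99_det_flip3] at h3
    exact h3
  · have h3 := conclC hT hstd h.flip3 s12 (neg_nonpos.mpr s13) s21 (neg_nonneg.mpr s23) (neg_nonpos.mpr s31) (neg_nonpos.mpr s32)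
    rw [h99_det_flip3] at h3
    exact h3
  · have h3 := conclB hT hstd h.flip2 (neg_nonneg.mpr s12) s13 (neg_nonneg.mpr s21) (neg_nonneg.mpr s23) s31 (neg_nonneg.mpr s32)
    rw [h99_det_flip2] at h3
    exact h3
  · have h3 := conclD2 hT hstd h.swap12 s21 s23 s12 s13 s32 s31
    rw [h99_det_swap12] at h3
    exact h3
  · have h3 := conclC hT hstd h.swap12 s21 s23 s12 s13 s32 s31
    rw [h99_det_swap12] at h3
    exact h3
  · have h3 := conclD2 hT hstd h.swap12.swap23.flip1 (neg_nonpos.mpr s23) (neg_nonpos.mpr s21) (neg_nonpos.mpr s32) s31 (neg_nonneg.mpr s12) s13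
    rw [h99_det_flip1, h99_det_swap23, h99_det_swap12] at h3
    exact h3
  · have h3 := conclE hT hstd h.flip3 s12 (neg_nonneg.mpr s13) s21 (neg_nonpos.mpr s23) (neg_nonpos.mpr s31) (neg_nonneg.mpr s32)
    rw [h99_det_flip3] at h3
    exact h3
  · have h3 := conclC hT hstd h.swap23.swap12.flip3 s31 (neg_nonpos.mpr s32) s13 (neg_nonneg.mpr s12) (neg_nonpos.mpr s23) (neg_nonpos.mpr s21)
    rw [h99_det_flip3, h99_det_swap12, h99_det_swap23] at h3
    exact h3
  · have h3 := conclD1 hT hstd h.swap23 s13 s12 s31 s32 s21 s23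
    rw [h99_det_swap23] at h3
    exact h3
  · have h3 := conclE hT hstd h.swap12.flip1 (neg_nonpos.mpr s21) (neg_nonneg.mpr s23) (neg_nonneg.mpr s12) s13 (neg_nonpos.mpr s32) s31
    rw [h99_det_flip1, h99_det_swap12] at h3
    exact h3
  · have h3 := conclD1 hT hstd h.swap12.swap23.flip3 s23 (neg_nonpos.mpr s21) s32 (neg_nonpos.mpr s31) (neg_nonneg.mpr s12) (neg_nonneg.mpr s13)
    rw [h99_det_flip3, h99_det_swap23, h99_det_swap12] at h3
    exact h3
  · have h3 := conclD2 hT hstd h.swap23 s13 s12 s31 s32 s21 s23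
    rw [h99_det_swap23] at h3
    exact h3
  · have h3 := conclC hT hstd h.swap12.swap23.swap12 s32 s31 s23 s21 s13 s12
    rw [h99_det_swap12, h99_det_swap23, h99_det_swap12] at h3
    exact h3
  · have h3 := conclC hT hstd h.swap12.flip3 s21 (neg_nonpos.mpr s23) s12 (neg_nonneg.mpr s13) (neg_nonpos.mpr s32) (neg_nonpos.mpr s31)
    rw [h99_det_flip3, h99_det_swap12] at h3
    exact h3
  · exact conclD2 hT hstd h s12 s13 s21 s23 s31 s32
  · have h3 := conclB hT hstd h.flip1 (neg_nonneg.mpr s12) (neg_nonneg.mpr s13) (neg_nonneg.mpr s21) s23 (neg_nonneg.mpr s31) s32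
    rw [h99_det_flip1] at h3
    exact h3
  · exact conclC hT hstd h s12 s13 s21 s23 s31 s32
  · exact conclD1 hT hstd h s12 s13 s21 s23 s31 s32
  · have h3 := conclC hT hstd h.swap12.swap23 s23 s21 s32 s31 s12 s13
    rw [h99_det_swap23, h99_det_swap12] at h3
    exact h3
  · have h3 := conclC hT hstd h.swap23 s13 s12 s31 s32 s21 s23
    rw [h99_det_swap23] at h3
    exact h3
  · exact conclA hT hstd h s12 s13 s21 s23 s31 s32

end

end Pool.Agent.Helper84.KBM
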