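import Pool.Agent.Helper58.KB.Defs
import Pool.Agent.Helper84.Dbl.Base
/-!
# Local version: definitions
-/
set_option autoImplicit false
namespace Pool.Agent.Helper84.KBM
open Pool.Agent.Helper58.KB

/-- The matrix is near the standard position of the optimal lattice. -/
structure Std (m11 m12 m13 m21 m22 m23 m31 m32 m33 : ℝ) : Prop where
  l11 : 2 - 1 / 2000 ≤ m11
  u11 : m11 ≤ 2 + 1 / 2000
  l12 : -(2344 / 10000) ≤ m12
  u12 : m12 ≤ -(2334 / 10000)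
  l13 : -(1 / 2000) ≤ m13
  u13 : m13 ≤ 1 / 2000
  l21 : -(3251 / 10000) ≤ m21
  u21 : m21 ≤ -(3240 / 10000)
  l22 : 2 - 1 / 2000 ≤ m22
  u22 : m22 ≤ 2 + 1 / 2000
  l23 : -(5590 / 10000) ≤ m23
  u23 : m23 ≤ -(5579 / 10000)
  l31 : -(5590 / 10000) ≤ m31
  u31 : m31 ≤ -(5579 / 10000)
  l32 : -(3251 / 10000) ≤ m32
  u32 : m32 ≤ -(3240 / 10000)
  l33 : 2 - 1 / 2000 ≤ m33
  u33 : m33 ≤ 2 + 1 / 2000

/-- The nonzero combinations of the rows lie outside the interior of `K_Q - K_Q`, and for each of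
the four facet types there is a point of `2 K_Q` on this facet such that its coset does not meet
the interior of `2 K_Q`. -/
structure KH (Q m11 m12 m13 m21 m22 m23 m31 m32 m33 : ℝ) : Prop where
  adm : ∀ i j k : ℤ, ¬ (i = 0 ∧ j = 0 ∧ k = 0) →
    OutDK Q (i * m11 + j * m21 + k * m31) (i * m12 + j * m22 + k * m32)
      (i * m13 + j * m23 + k * m33)
  h0 : ∃ p q r : ℝ, InK Q (2 * Q + 2) p q r ∧ 2 ≤ -p - q - r ∧
    OutAll Q p q r m11 m12 m13 m21 m22 m23 m31 m32 m33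
  h1 : ∃ p q r : ℝ, InK Q (2 * Q + 2) p q r ∧ 2 ≤ -p + q + r ∧
    OutAll Q p q r m11 m12 m13 m21 m22 m23 m31 m32 m33
  h2 : ∃ p q r : ℝ, InK Q (2 * Q + 2) p q r ∧ 2 ≤ p - q + r ∧
    OutAll Q p q r m11 m12 m13 m21 m22 m23 m31 m32 m33
  h3 : ∃ p q r : ℝ, InK Q (2 * Q + 2) p q r ∧ 2 ≤ p + q - r ∧
    OutAll Q p q r m11 m12 m13 m21 m22 m23 m31 m32 m33

/-! ### symmetries of the conditions -/

theorem outDK_swap12 {Q x y z : ℝ} (h : OutDK Q x y z) : OutDK Q y x z := by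
  unfold OutDK at *
  rw [add_comm |y| |x|]
  tauto

theorem outDK_swap23 {Q x y z : ℝ} (h : OutDK Q x y z) : OutDK Q x z y := by
  unfold OutDK at *
  rw [add_right_comm |x| |z| |y|]
  tauto

theorem outDK_neg1 {Q x y z : ℝ} (h : OutDK Q x y z) : OutDK Q (-x) y z := by
  unfold OutDK at *
  rwa [abs_neg]

theorem outDK_neg2 {Q x y z : ℝ} (h : OutDK Q x y z) : OutDK Q x (-y) z := by
  unfold OutDK at *
  rwa [abs_neg]

theorem outDK_neg3 {Q x y z : ℝ} (h : OutDK Q x y z) : OutDK Q x y (-z) := by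
  unfold OutDK at *
  rwa [abs_neg]

theorem outTK_swap12 {Q x y z : ℝ} (h : OutTK Q x y z) : OutTK Q y x z := by
  by_contra hc
  simp only [OutTK, not_or, not_le] at hc
  obtain ⟨⟨a1, a2, a3⟩, ⟨b1, b2, b3⟩, ⟨c1, c2, c3⟩, d1, d2, d3⟩ := hc
  rcases h with (h | h | h) | (h | h | h) | (h | h | h) | (h | h | h) <;> linarith

theorem outTK_swap23 {Q x y z : ℝ} (h : OutTK Q x y z) : OutTK Q x z y := by
  by_contra hc
  simp only [OutTK, not_or, not_le] at hc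
  obtain ⟨⟨a1, a2, a3⟩, ⟨b1, b2, b3⟩, ⟨c1, c2, c3⟩, d1, d2, d3⟩ := hc
  rcases h with (h | h | h) | (h | h | h) | (h | h | h) | (h | h | h) <;> linarith

theorem outTK_flip1 {Q x y z : ℝ} (h : OutTK Q x y z) : OutTK Q x (-y) (-z) := by
  by_contra hc
  simp only [OutTK, not_or, not_le] at hc
  obtain ⟨⟨a1, a2, a3⟩, ⟨b1, b2, b3⟩, ⟨c1, c2, c3⟩, d1, d2, d3⟩ := hc
  rcases h with (h | h | h) | (h | h | h) | (h | h | h) | (h | h | h) <;> linarith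

theorem inK_swap12 {Q s x y z : ℝ} (h : InK Q s x y z) : InK Q s y x z := by
  obtain ⟨⟨a1, a2, a3⟩, ⟨b1, b2, b3⟩, ⟨c1, c2, c3⟩, d1, d2, d3⟩ := h
  refine ⟨⟨?_, ?_, ?_⟩, ⟨?_, ?_, ?_⟩, ⟨?_, ?_, ?_⟩, ?_, ?_, ?_⟩ <;> linarith

theorem inK_swap23 {Q s x y z : ℝ} (h : InK Q s x y z) : InK Q s x z y := by
  obtain ⟨⟨a1, a2, a3⟩, ⟨b1, b2, b3⟩, ⟨c1, c2, c3⟩, d1, d2, d3⟩ := h
  refine ⟨⟨?_, ?_, ?_⟩, ⟨?_, ?_, ?_⟩, ⟨?_, ?_, ?_⟩, ?_, ?_, ?_⟩ <;> linarith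

theorem inK_flip1 {Q s x y z : ℝ} (h : InK Q s x y z) : InK Q s x (-y) (-z) := by
  obtain ⟨⟨a1, a2, a3⟩, ⟨b1, b2, b3⟩, ⟨c1, c2, c3⟩, d1, d2, d3⟩ := h
  refine ⟨⟨?_, ?_, ?_⟩, ⟨?_, ?_, ?_⟩, ⟨?_, ?_, ?_⟩, ?_, ?_, ?_⟩ <;> linarith

theorem outAll_swap12 {Q p q r m11 m12 m13 m21 m22 m23 m31 m32 m33 : ℝ}
    (h : OutAll Q p q r m11 m12 m13 m21 m22 m23 m31 m32 m33) :
    OutAll Q q p r m22 m21 m23 m12 m11 m13 m32 m31 m33 := by
  intro i j k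
  have t := outTK_swap12 (h j i k)
  convert t using 1 <;> ring

theorem outAll_swap23 {Q p q r m11 m12 m13 m21 m22 m23 m31 m32 m33 : ℝ}
    (h : OutAll Q p q r m11 m12 m13 m21 m22 m23 m31 m32 m33) :
    OutAll Q p r q m11 m13 m12 m31 m33 m32 m21 m23 m22 := by
  intro i j k
  have t := outTK_swap23 (h i k j)
  convert t using 1 <;> ring

theorem outAll_flip1 {Q p q r m11 m12 m13 m21 m22 m23 m31 m32 m33 : ℝ}
    (h : OutAll Q p q r m11 m12 m13 m21 m22 m23 m31 m32 m33) :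
    OutAll Q p (-q) (-r) m11 (-m12) (-m13) (-m21) m22 m23 (-m31) m32 m33 := by
  intro i j k
  have t := outTK_flip1 (h i (-j) (-k))
  push_cast at t
  convert t using 1 <;> ring

theorem outAll_sub13 {Q p q r m11 m12 m13 m21 m22 m23 m31 m32 m33 : ℝ}
    (h : OutAll Q p q r m11 m12 m13 m21 m22 m23 m31 m32 m33) :
    OutAll Q p q r (m11 - m31) (m12 - m32) (m13 - m33) m21 m22 m23 m31 m32 m33 := by
  intro i j k
  have t := h i j (k - i)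
  push_cast at t
  convert t using 1 <;> ring

theorem outAll_sub23 {Q p q r m11 m12 m13 m21 m22 m23 m31 m32 m33 : ℝ}
    (h : OutAll Q p q r m11 m12 m13 m21 m22 m23 m31 m32 m33) :
    OutAll Q p q r m11 m12 m13 (m21 - m31) (m22 - m32) (m23 - m33) m31 m32 m33 := by
  intro i j k
  have t := h i j (k - j)
  push_cast at t
  convert t using 1 <;> ring

theorem KH.swap12 {Q m11 m12 m13 m21 m22 m23 m31 m32 m33 : ℝ}
    (h : KH Q m11 m12 m13 m21 m22 m23 m31 m32 m33) :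
    KH Q m22 m21 m23 m12 m11 m13 m32 m31 m33 := by
  refine ⟨?_, ?_, ?_, ?_, ?_⟩
  · intro i j k hn
    have t := outDK_swap12 (h.adm j i k (by tauto))
    convert t using 1 <;> ring
  · obtain ⟨p, q, r, a1, a2, a3⟩ := h.h0
    exact ⟨q, p, r, inK_swap12 a1, by linarith, outAll_swap12 a3⟩
  · obtain ⟨p, q, r, a1, a2, a3⟩ := h.h2
    exact ⟨q, p, r, inK_swap12 a1, by linarith, outAll_swap12 a3⟩
  · obtain ⟨p, q, r, a1, a2, a3⟩ := h.h1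
    exact ⟨q, p, r, inK_swap12 a1, by linarith, outAll_swap12 a3⟩
  · obtain ⟨p, q, r, a1, a2, a3⟩ := h.h3
    exact ⟨q, p, r, inK_swap12 a1, by linarith, outAll_swap12 a3⟩

theorem KH.swap23 {Q m11 m12 m13 m21 m22 m23 m31 m32 m33 : ℝ}
    (h : KH Q m11 m12 m13 m21 m22 m23 m31 m32 m33) :
    KH Q m11 m13 m12 m31 m33 m32 m21 m23 m22 := by
  refine ⟨?_, ?_, ?_, ?_, ?_⟩
  · intro i j k hn
    have t := outDK_swap23 (h.adm i k j (by tauto))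
    convert t using 1 <;> ring
  · obtain ⟨p, q, r, a1, a2, a3⟩ := h.h0
    exact ⟨p, r, q, inK_swap23 a1, by linarith, outAll_swap23 a3⟩
  · obtain ⟨p, q, r, a1, a2, a3⟩ := h.h1
    exact ⟨p, r, q, inK_swap23 a1, by linarith, outAll_swap23 a3⟩
  · obtain ⟨p, q, r, a1, a2, a3⟩ := h.h3
    exact ⟨p, r, q, inK_swap23 a1, by linarith, outAll_swap23 a3⟩
  · obtain ⟨p, q, r, a1, a2, a3⟩ := h.h2
    exact ⟨p, r, q, inK_swap23 a1, by linarith, outAll_swap23 a3⟩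

theorem KH.flip1 {Q m11 m12 m13 m21 m22 m23 m31 m32 m33 : ℝ}
    (h : KH Q m11 m12 m13 m21 m22 m23 m31 m32 m33) :
    KH Q m11 (-m12) (-m13) (-m21) m22 m23 (-m31) m32 m33 := by
  refine ⟨?_, ?_, ?_, ?_, ?_⟩
  · intro i j k hn
    have t := outDK_neg2 (outDK_neg3 (h.adm i (-j) (-k) (by
      rintro ⟨e1, e2, e3⟩
      exact hn ⟨e1, by omega, by omega⟩)))
    push_cast at t
    convert t using 1 <;> ring
  · obtain ⟨p, q, r, a1, a2, a3⟩ := h.h1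
    exact ⟨p, -q, -r, inK_flip1 a1, by linarith, outAll_flip1 a3⟩
  · obtain ⟨p, q, r, a1, a2, a3⟩ := h.h0
    exact ⟨p, -q, -r, inK_flip1 a1, by linarith, outAll_flip1 a3⟩
  · obtain ⟨p, q, r, a1, a2, a3⟩ := h.h3
    exact ⟨p, -q, -r, inK_flip1 a1, by linarith, outAll_flip1 a3⟩
  · obtain ⟨p, q, r, a1, a2, a3⟩ := h.h2
    exact ⟨p, -q, -r, inK_flip1 a1, by linarith, outAll_flip1 a3⟩

theorem KH.flip2 {Q m11 m12 m13 m21 m22 m23 m31 m32 m33 : ℝ}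
    (h : KH Q m11 m12 m13 m21 m22 m23 m31 m32 m33) :
    KH Q m11 (-m12) m13 (-m21) m22 (-m23) m31 (-m32) m33 :=
  h.swap12.flip1.swap12

theorem KH.flip3 {Q m11 m12 m13 m21 m22 m23 m31 m32 m33 : ℝ}
    (h : KH Q m11 m12 m13 m21 m22 m23 m31 m32 m33) :
    KH Q m11 m12 (-m13) m21 m22 (-m23) (-m31) (-m32) m33 :=
  h.swap23.flip2.swap23

theorem KH.sub13 {Q m11 m12 m13 m21 m22 m23 m31 m32 m33 : ℝ}
    (h : KH Q m11 m12 m13 m21 m22 m23 m31 m32 m33) :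
    KH Q (m11 - m31) (m12 - m32) (m13 - m33) m21 m22 m23 m31 m32 m33 := by
  refine ⟨?_, ?_, ?_, ?_, ?_⟩
  · intro i j k hn
    have t := h.adm i j (k - i) (by
      rintro ⟨e1, e2, e3⟩
      exact hn ⟨e1, e2, by omega⟩)
    push_cast at t
    convert t using 1 <;> ring
  · obtain ⟨p, q, r, a1, a2, a3⟩ := h.h0
    exact ⟨p, q, r, a1, a2, outAll_sub13 a3⟩
  · obtain ⟨p, q, r, a1, a2, a3⟩ := h.h1
    exact ⟨p, q, r, a1, a2, outAll_sub13 a3⟩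
  · obtain ⟨p, q, r, a1, a2, a3⟩ := h.h2
    exact ⟨p, q, r, a1, a2, outAll_sub13 a3⟩
  · obtain ⟨p, q, r, a1, a2, a3⟩ := h.h3
    exact ⟨p, q, r, a1, a2, outAll_sub13 a3⟩

theorem KH.sub23 {Q m11 m12 m13 m21 m22 m23 m31 m32 m33 : ℝ}
    (h : KH Q m11 m12 m13 m21 m22 m23 m31 m32 m33) :
    KH Q m11 m12 m13 (m21 - m31) (m22 - m32) (m23 - m33) m31 m32 m33 := by
  refine ⟨?_, ?_, ?_, ?_, ?_⟩
  · intro i j k hn
    have t := h.adm i j (k - j) (by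
      rintro ⟨e1, e2, e3⟩
      exact hn ⟨e1, e2, by omega⟩)
    push_cast at t
    convert t using 1 <;> ring
  · obtain ⟨p, q, r, a1, a2, a3⟩ := h.h0
    exact ⟨p, q, r, a1, a2, outAll_sub23 a3⟩
  · obtain ⟨p, q, r, a1, a2, a3⟩ := h.h1
    exact ⟨p, q, r, a1, a2, outAll_sub23 a3⟩
  · obtain ⟨p, q, r, a1, a2, a3⟩ := h.h2
    exact ⟨p, q, r, a1, a2, outAll_sub23 a3⟩
  · obtain ⟨p, q, r, a1, a2, a3⟩ := h.h3
    exact ⟨p, q, r, a1, a2, outAll_sub23 a3⟩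

end Pool.Agent.Helper84.KBM
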