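import Pool.Agent.Helper58.KB.Dens
import Pool.Agent.Helper63.KB.Pack
import Pool.Agent.Helper30.KB.Holes
import Pool.Agent.Helper49.KB.Body
import Pool.Agent.Helper49.KB.Vol
import Pool.Agent.Helper84.KBM.Lattice
import Pool.Agent.Helper84.Dbl.Opt
/-!
# The tetrahedron is not a local minimiser of the double lattice packing density
-/
set_option autoImplicit false
namespace Pool.Agent.Helper84.KBM
open MeasureTheory
open scoped Pointwise ENNReal
open Pool.Agent.Helper84.Tet (E3 IsConvexBody tetrahedron)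
open Pool.Agent.Helper84.Dbl
open Pool.Agent.Helper58.KB

theorem covolume_ge_E3 {Q : ℝ} (hQ : 10 ^ 10 ≤ Q) (Λ : Submodule ℤ E3) [DiscreteTopology Λ]
    [IsZLattice ℝ Λ] (v : E3) (hp : IsPackingFam (dlFamily (triakis Q) v Λ)) :
    d2 + 53 / 10 / Q ≤ ZLattice.covolume Λ := by
  have hQ1 : (1 : ℝ) < Q := by linarith [show (1:ℝ) < 10 ^ 10 by norm_num]
  let f := (EuclideanSpace.equiv (Fin 3) ℝ).symm
  have hf : MeasurePreserving f := PiLp.volume_preserving_toLp (Fin 3)
  rw [← ZLattice.covolume_comap Λ volume volume hf]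
  obtain ⟨f0, f1, f2, f3⟩ := exists_holes (Q := Q) hQ1
    (ZLattice.comap ℝ Λ f.toLinearMap) (fun i => v i)
    (fun u hu => pack_outTK hQ1 Λ v hp (f u) hu)
  refine covolume_ge_local hQ _ ?_ f0 f1 f2 f3
  intro u hu hu0
  have hu2 : f u ∈ Λ := hu
  exact pack_outDK hQ1 Λ v hp (f u) hu2 (by
    intro h
    apply hu0
    exact f.injective (by rw [h, map_zero]))

/-- **The bodies `K_Q` have a smaller double lattice packing density than the tetrahedron.** -/
theorem deltaLstar_triakis_lt {Q : ℝ} (hQ : 10 ^ 10 ≤ Q) :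
    deltaLstar (triakis Q) < deltaLstar tetrahedron := by
  have hQ1 : (1 : ℝ) < Q := by linarith [show (1:ℝ) < 10 ^ 10 by norm_num]
  have hD : (0 : ℝ) < d2 + 53 / 10 / Q := by
    have := d2_pos
    positivity
  refine (deltaLstar_le (triakis_subset_closedBall hQ1) (vol_triakis_le hQ1) hD
    (fun Λ _ _ v hp => covolume_ge_E3 hQ Λ v hp)).trans_lt ?_
  rw [deltaLstar_tetrahedron, ← ratio_eq]
  have hd := d2_pos
  have hd' := d2_le
  have hQ0 : (0 : ℝ) < Q := by linarith
  have key : 2 * (8 / 3 * ((3 * Q + 3) / (3 * Q + 1))) / (d2 + 53 / 10 / Q) < 2 * (8 / 3) / d2 := by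
    rw [div_lt_div_iff₀ hD hd]
    have h1 : (3 * Q + 3) / (3 * Q + 1) = 1 + 2 / (3 * Q + 1) := by
      rw [eq_comm, eq_div_iff (by linarith)]
      field_simp
      ring
    have h2 : 2 / (3 * Q + 1) * d2 < 53 / 10 / Q := by
      rw [div_mul_eq_mul_div, div_lt_div_iff₀ (by linarith) hQ0]
      nlinarith
    rw [h1]
    nlinarith
  exact (ENNReal.ofReal_lt_ofReal_iff (by positivity)).2 key

/-- **The tetrahedron is not a local minimiser**: arbitrarily close to `T` there are convex bodies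
with a smaller double lattice packing density. -/
theorem exists_near {ε : ℝ} (hε : 0 < ε) :
    ∃ K : Set E3, IsConvexBody K ∧ tetrahedron ⊆ K ∧ K ⊆ (1 + ε) • tetrahedron ∧
      deltaLstar K < deltaLstar tetrahedron := by
  set Q : ℝ := max (10 ^ 10) (1 / ε) with hQd
  have hQ : 10 ^ 10 ≤ Q := le_max_left _ _
  have hQ1 : (1 : ℝ) < Q := by linarith [show (1:ℝ) < 10 ^ 10 by norm_num]
  have hQe : 1 / ε ≤ Q := le_max_right _ _
  refine ⟨triakis Q, triakis_convexBody hQ1, tetrahedron_subset_triakis hQ1, ?_,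
    deltaLstar_triakis_lt hQ⟩
  refine (triakis_subset_smul hQ1).trans ?_
  have h0 : (3 * Q + 3) / (3 * Q + 1) ≤ 1 + ε := by
    rw [div_le_iff₀ (by linarith)]
    rw [div_le_iff₀ hε] at hQe
    nlinarith
  have h1 : 0 ≤ (3 * Q + 3) / (3 * Q + 1) := div_nonneg (by linarith) (by linarith)
  have hconv : Convex ℝ tetrahedron := convex_convexHull ℝ _
  have hz : (0 : E3) ∈ tetrahedron := by
    apply Pool.Agent.Helper84.Tet.mem_tetrahedron <;> simp
  rintro _ ⟨y, hy, rfl⟩
  have h2 : 0 < 1 + ε := by linarith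
  rw [Set.mem_smul_set_iff_inv_smul_mem₀ h2.ne']
  show (1 + ε)⁻¹ • (((3 * Q + 3) / (3 * Q + 1)) • y) ∈ tetrahedron
  rw [smul_smul]
  refine hconv.smul_mem_of_zero_mem hz hy ⟨by positivity, ?_⟩
  rw [inv_mul_le_iff₀ h2, mul_one]
  exact h0

end Pool.Agent.Helper84.KBM
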